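import Mathlib
import Pool.Agent.Work.MP_302c96_al.Solv

set_option autoImplicit false

-- ===== Stmts
/-! Statements of the items of project Mal (MP_302c96_al): G = ABA with A infinite cyclic malnormal.
Every item is a theorem with the name and the signature below, in its own file. -/


namespace Pool.Agent.Work.MP_302c96_al.Mal

universe u

/-- `G = A (x A x⁻¹) A` with `A = ⟨a⟩`. -/
def Cov {G : Type u} [Group G] (a x : G) : Prop :=
  ∀ g : G, ∃ i j k : ℤ, g = a ^ i * (x * a ^ j * x⁻¹) * a ^ k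

/-- `a` has infinite order. -/
def Inf {G : Type u} [Group G] (a : G) : Prop := ∀ n : ℤ, a ^ n = 1 → n = 0

/-- `⟨a⟩` is malnormal. -/
def Maln {G : Type u} [Group G] (a : G) : Prop :=
  ∀ g : G, ∀ n m : ℤ, n ≠ 0 → g * a ^ n * g⁻¹ = a ^ m → ∃ k : ℤ, g = a ^ k

/-- Q1: a common power of `a` and `x a x⁻¹` is central. -/
def StCentral : Prop :=
  ∀ {G : Type u} [Group G] (a x : G), Cov a x → Inf a → ∀ p q : ℤ, p ≠ 0 → q ≠ 0 →
    x * a ^ p * x⁻¹ = a ^ q → p = q ∧ a ^ p ∈ Subgroup.center G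

/-- Q2: if a power of `a` with exponent `p ≠ 0` is central (or trivial), the centre has finite index. -/
def StIndex : Prop :=
  ∀ {G : Type u} [Group G] (a x : G), Cov a x → ∀ p : ℤ, p ≠ 0 → a ^ p ∈ Subgroup.center G →
    (Subgroup.center G).FiniteIndex

/-- Q3: proper quotients. -/
def StQuot : Prop :=
  ∀ {G : Type u} [Group G] (a x : G), Cov a x → Inf a → ∀ (N : Subgroup G) [N.Normal], N ≠ ⊥ →
    (Subgroup.center (G ⧸ N)).FiniteIndex ∧ Finite (commutator (G ⧸ N))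

/-- N: an abelian subgroup normalised by `a` and not inside `⟨a⟩` is a module of the special kind. -/
def StNorm : Prop :=
  ∀ {G : Type u} [Group G] (a x : G), Cov a x → Inf a → Maln a → (¬ ∃ k : ℤ, x = a ^ k) →
    ∀ M : Subgroup G, (∀ m ∈ M, ∀ n ∈ M, m * n = n * m) → (∀ m ∈ M, a * m * a⁻¹ ∈ M) →
      (∀ m ∈ M, a⁻¹ * m * a ∈ M) → (∃ m ∈ M, ¬ ∃ k : ℤ, m = a ^ k) →
      ∃ c ∈ M, ∃ q : ℤ, q ≠ 0 ∧ (∀ m ∈ M, ∀ k : ℤ, k ≠ 0 → a ^ k * m * a ^ (-k) = m → m = 1) ∧
        ∀ m ∈ M, ∃ i s : ℤ, (a ^ q * m * a ^ (-q)) * m⁻¹ =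
          a ^ i * ((a ^ (q * s) * c * a ^ (-(q * s))) * c⁻¹) * a ^ (-i)

/-- M: the module lemma: from the special module to a domain. -/
def StMod : Prop :=
  ∀ {M : Type u} [AddCommGroup M] (t : ℤ → M →+ M) (c : M) (q : ℤ), q ≠ 0 →
    (∀ m : M, t 0 m = m) → (∀ (i j : ℤ) (m : M), t (i + j) m = t i (t j m)) →
    (∀ k : ℤ, k ≠ 0 → ∀ m : M, t k m = m → m = 0) →
    (∀ m : M, ∃ i s : ℤ, t q m - m = t i (t (q * s) c - c)) →
    (∃ m : M, m ≠ 0) →
    ∃ (D : Type) (_ : CommRing D) (_ : IsDomain D) (T : Dˣ), (∀ k : ℤ, k ≠ 0 → T ^ k ≠ 1) ∧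
      ∀ y : D, ∃ i j : ℤ, ((T ^ q : Dˣ) - 1 : D) * y = (T ^ i : Dˣ) - (T ^ j : Dˣ)

/-- R1: characteristic p. -/
def StCharP : Prop :=
  ∀ {D : Type} [CommRing D] [IsDomain D] (p : ℕ) [Fact p.Prime] [CharP D p] (T : Dˣ) (q : ℕ),
    0 < q → (∀ k : ℤ, k ≠ 0 → T ^ k ≠ 1) → ∀ i j : ℤ,
      ((T : D) ^ q - 1) * (1 + (T : D) ^ (2 * q + 1)) ≠ (T ^ i : Dˣ) - (T ^ j : Dˣ)

/-- R2: bound for the exponents when `T` is not integral. -/
def StNonInt : Prop :=
  ∀ {D : Type} [CommRing D] [IsDomain D] [CharZero D] (T : Dˣ) (q : ℕ), 0 < q →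
    (∀ k : ℤ, k ≠ 0 → T ^ k ≠ 1) → ¬ IsIntegral ℤ (T : D) → ∀ n : ℕ, 0 < n → ∀ i j : ℤ,
      ((T : D) ^ q - 1) * (n : D) = (T ^ i : Dˣ) - (T ^ j : Dˣ) → i ≤ q ∧ j ≤ q

/-- R3: Kronecker. -/
def StKron : Prop :=
  ∀ {D : Type} [CommRing D] [IsDomain D] [CharZero D] (T : Dˣ),
    (∀ k : ℤ, k ≠ 0 → T ^ k ≠ 1) → IsIntegral ℤ (T : D) →
    ∃ z : ℂ, 1 < ‖z‖ ∧ ∀ f : Polynomial ℤ, Polynomial.aeval (T : D) f = 0 → Polynomial.aeval z f = 0

/-- R4: bound for the exponents from a complex conjugate. -/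
def StCBound : Prop :=
  ∀ (z : ℂ), 1 < ‖z‖ → ∀ q : ℕ, 0 < q → ∃ C : ℕ, ∀ n : ℕ, 0 < n → ∀ i j : ℤ,
      (z ^ q - 1) * (n : ℂ) = z ^ i - z ^ j → i ≤ C * (1 + Nat.log 2 n) ∧ j ≤ C * (1 + Nat.log 2 n)

/-- R5: upper bound in all cases. -/
def StUpper : Prop :=
  ∀ {D : Type} [CommRing D] [IsDomain D] [CharZero D] (T : Dˣ) (q : ℕ), 0 < q →
    (∀ k : ℤ, k ≠ 0 → T ^ k ≠ 1) → ∃ C : ℕ, ∀ n : ℕ, 0 < n → ∀ i j : ℤ,
      ((T : D) ^ q - 1) * (n : D) = (T ^ i : Dˣ) - (T ^ j : Dˣ) →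
        i ≤ C * (1 + Nat.log 2 n) ∧ j ≤ C * (1 + Nat.log 2 n)

/-- R6: counting. -/
def StCount : Prop :=
  ∀ (f : ℕ → ℤ × ℤ) (C : ℕ), (∀ m n : ℕ, 0 < m → 0 < n → f m = f n → m = n) →
    ¬ ∀ n : ℕ, 0 < n → |(f n).1| ≤ C * (1 + Nat.log 2 n) ∧ |(f n).2| ≤ C * (1 + Nat.log 2 n)

/-- R7: the ring lemma. -/
def StRing : Prop :=
  ∀ {D : Type} [CommRing D] [IsDomain D] (T : Dˣ) (q : ℤ), q ≠ 0 →
    (∀ k : ℤ, k ≠ 0 → T ^ k ≠ 1) →
    ¬ ∀ y : D, ∃ i j : ℤ, ((T ^ q : Dˣ) - 1 : D) * y = (T ^ i : Dˣ) - (T ^ j : Dˣ)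

end Pool.Agent.Work.MP_302c96_al.Mal

-- ===== Central
/-! Item Q1 of project Mal: a common power of `a` and `x a x⁻¹` is central. -/


namespace Pool.Agent.Work.MP_302c96_al.Mal

universe u

namespace Central

theorem cjz {G : Type u} [Group G] (x a : G) (n : ℤ) :
    x * a ^ n * x⁻¹ = (x * a * x⁻¹) ^ n := by
  exact (_root_.conj_zpow).symm

theorem inf_inj {G : Type u} [Group G] {a : G} (h : Inf a) {m n : ℤ} (e : a ^ m = a ^ n) :
    m = n := by
  have : a ^ (m - n) = 1 := by rw [zpow_sub, e, mul_inv_cancel]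
  have := h _ this
  omega

end Central

theorem I_Central : StCentral.{u} := by
  intro G _ a x hcov hinf p q hp hq hpq
  obtain ⟨b, hb⟩ : ∃ b, b = x * a * x⁻¹ := ⟨_, rfl⟩
  have hbn : ∀ n : ℤ, x * a ^ n * x⁻¹ = b ^ n := fun n => by
    rw [hb]; exact Central.cjz x a n
  have hbp : b ^ p = a ^ q := by rw [← hbn]; exact hpq
  -- `a ^ q` commutes with `b`
  have hcb : Commute b (a ^ q) := by rw [← hbp]; exact (Commute.refl b).zpow_right p
  obtain ⟨i, j, k, hx⟩ := hcov x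
  rw [hbn] at hx
  -- `b = a^i b^j a b^-j a^-i`
  have h1 : a ^ i * (b ^ j * a ^ p * (b ^ j)⁻¹) * (a ^ i)⁻¹ = a ^ q := by
    have h2 : x * a ^ p * x⁻¹ = a ^ i * (b ^ j * a ^ p * (b ^ j)⁻¹) * (a ^ i)⁻¹ := by
      have hk : a ^ k * a ^ p * (a ^ k)⁻¹ = a ^ p := by
        rw [← zpow_add, ← zpow_neg, ← zpow_add]
        congr 1
        ring
      calc x * a ^ p * x⁻¹ = (a ^ i * b ^ j * a ^ k) * a ^ p * (a ^ i * b ^ j * a ^ k)⁻¹ := by
            rw [← hx]
        _ = a ^ i * (b ^ j * (a ^ k * a ^ p * (a ^ k)⁻¹) * (b ^ j)⁻¹) * (a ^ i)⁻¹ := by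
            group
        _ = _ := by rw [hk]
    rw [← h2]; exact hpq
  have h3 : b ^ j * a ^ p * (b ^ j)⁻¹ = a ^ q := by
    have h4 : (a ^ i)⁻¹ * (a ^ i * (b ^ j * a ^ p * (b ^ j)⁻¹) * (a ^ i)⁻¹) * a ^ i =
        (a ^ i)⁻¹ * a ^ q * a ^ i := by rw [h1]
    have h5 : (a ^ i)⁻¹ * a ^ q * a ^ i = a ^ q := by
      rw [← zpow_neg, ← zpow_add, ← zpow_add]
      congr 1
      ring
    rw [h5] at h4
    rw [← h4]
    group
  have h6 : b ^ j * a ^ q * (b ^ j)⁻¹ = a ^ q := by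
    have : Commute (b ^ j) (a ^ q) := hcb.zpow_left j
    rw [this.eq, mul_inv_cancel_right]
  have h7 : (a ^ q) ^ q = (a ^ q) ^ p := by
    calc (a ^ q) ^ q = (b ^ j * a ^ p * (b ^ j)⁻¹) ^ q := by rw [h3]
      _ = b ^ j * (a ^ p) ^ q * (b ^ j)⁻¹ := (Central.cjz _ _ _).symm
      _ = b ^ j * (a ^ q) ^ p * (b ^ j)⁻¹ := by rw [← zpow_mul, ← zpow_mul, mul_comm p q]
      _ = (b ^ j * a ^ q * (b ^ j)⁻¹) ^ p := Central.cjz _ _ _
      _ = (a ^ q) ^ p := by rw [h6]
  have hqp : p = q := by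
    rw [← zpow_mul, ← zpow_mul] at h7
    have := Central.inf_inj hinf h7
    exact (mul_left_cancel₀ hq this).symm
  refine ⟨hqp, ?_⟩
  rw [Subgroup.mem_center_iff]
  intro g
  obtain ⟨i', j', k', hg⟩ := hcov g
  rw [hbn] at hg
  have c1 : Commute (a ^ i') (a ^ p) := (Commute.refl a).zpow_zpow i' p
  have c2 : Commute (b ^ j') (a ^ p) := by
    rw [hqp]; exact hcb.zpow_left j'
  have c3 : Commute (a ^ k') (a ^ p) := (Commute.refl a).zpow_zpow k' p
  have c4 : Commute g (a ^ p) := by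
    rw [hg]; exact (c1.mul_left c2).mul_left c3
  exact c4.eq

end Pool.Agent.Work.MP_302c96_al.Mal

-- ===== Index
/-!
# Project Mal (MP_302c96): if a power of `a` is central, the centre has finite index
-/

namespace Pool.Agent.Work.MP_302c96_al.Mal

universe u

namespace Index

theorem finite_quot {G : Type u} [Group G] (a x : G) (h : Cov a x) (p : ℤ) (hp : p ≠ 0)
    (hc : a ^ p ∈ Subgroup.center G) : Finite (G ⧸ Subgroup.center G) := by
  set π : G →* G ⧸ Subgroup.center G := QuotientGroup.mk' (Subgroup.center G) with hπ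
  have h1 : π a ^ p = 1 := by
    rw [← map_zpow]
    exact (QuotientGroup.eq_one_iff _).2 hc
  have h2 : IsOfFinOrder (π a) := isOfFinOrder_iff_zpow_eq_one.2 ⟨p, hp, h1⟩
  have h3 : Finite (Subgroup.zpowers (π a)) := by
    have := h2.finite_zpowers
    exact this
  let f : Subgroup.zpowers (π a) × Subgroup.zpowers (π a) × Subgroup.zpowers (π a) →
      G ⧸ Subgroup.center G := fun u => u.1.1 * (π x * u.2.1.1 * (π x)⁻¹) * u.2.2.1
  have hf : Function.Surjective f := by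
    intro y
    obtain ⟨g, rfl⟩ := QuotientGroup.mk'_surjective (Subgroup.center G) y
    obtain ⟨i, j, k, hg⟩ := h g
    refine ⟨⟨⟨π a ^ i, i, rfl⟩, ⟨π a ^ j, j, rfl⟩, ⟨π a ^ k, k, rfl⟩⟩, ?_⟩
    change π a ^ i * (π x * π a ^ j * (π x)⁻¹) * π a ^ k = π g
    rw [hg]
    simp only [map_mul, map_zpow, map_inv]
  exact Finite.of_surjective f hf

end Index

theorem I_Index : StIndex.{u} := by
  intro G _ a x h p hp hc
  have := Index.finite_quot a x h p hp hc
  exact Subgroup.finiteIndex_of_finite_quotient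

end Pool.Agent.Work.MP_302c96_al.Mal

-- ===== Quot
/-! Item Q3: proper quotients. -/


open scoped commutatorElement

namespace Pool.Agent.Work.MP_302c96_al.Mal

universe u

namespace Quot

/-- Schur: finitely many commutators if the centre has finite index. -/
lemma finite_commutatorSet {G : Type u} [Group G] (h : (Subgroup.center G).FiniteIndex) :
    Finite (commutatorSet G) := by
  have hfin : Finite (G ⧸ Subgroup.center G) := inferInstance
  let s : G ⧸ Subgroup.center G → G := Quotient.out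
  have hs : ∀ g : G, ∃ z ∈ Subgroup.center G, g = s (QuotientGroup.mk g) * z := by
    intro g
    refine ⟨(s (QuotientGroup.mk g))⁻¹ * g, ?_, by group⟩
    rw [← QuotientGroup.eq]
    exact QuotientGroup.out_eq' _
  have hsub : commutatorSet G ⊆
      Set.range (fun p : (G ⧸ Subgroup.center G) × (G ⧸ Subgroup.center G) => ⁅s p.1, s p.2⁆) := by
    rintro c ⟨g, k, rfl⟩
    refine ⟨(QuotientGroup.mk g, QuotientGroup.mk k), ?_⟩
    obtain ⟨z, hz, hgz⟩ := hs g
    obtain ⟨w, hw, hkw⟩ := hs k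
    rw [Subgroup.mem_center_iff] at hz hw
    have e : ∀ u v : G, ⁅u * z, v * w⁆ = ⁅u, v⁆ := by
      intro u v
      have h1 := hz (v * w)
      have h2 := hw u⁻¹
      have h3 := hz (u⁻¹ * (v * w)⁻¹)
      calc ⁅u * z, v * w⁆ = u * (z * (v * w)) * z⁻¹ * u⁻¹ * (v * w)⁻¹ := by
            rw [commutatorElement_def]; group
        _ = u * ((v * w) * z) * z⁻¹ * u⁻¹ * (v * w)⁻¹ := by rw [h1]
        _ = u * v * (w * u⁻¹) * w⁻¹ * v⁻¹ := by group
        _ = u * v * (u⁻¹ * w) * w⁻¹ * v⁻¹ := by rw [h2]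
        _ = ⁅u, v⁆ := by rw [commutatorElement_def]; group
    dsimp only
    conv_rhs => rw [hgz, hkw]
    rw [e]
  exact (Set.finite_range _).subset hsub

lemma fin_comm {G : Type u} [Group G] (h : (Subgroup.center G).FiniteIndex) :
    Finite (commutator G) := by
  have := finite_commutatorSet h
  infer_instance

end Quot

theorem I_Quot (hC : StCentral.{u}) (hI : StIndex.{u}) : StQuot.{u} := by
  intro G _ a x hcov hinf N _ hN
  have hcov' : Cov (QuotientGroup.mk' N a) (QuotientGroup.mk' N x) := by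
    intro g
    obtain ⟨g, rfl⟩ := QuotientGroup.mk'_surjective N g
    obtain ⟨i, j, k, hg⟩ := hcov g
    exact ⟨i, j, k, by rw [hg]; simp only [map_mul, map_zpow, map_inv]⟩
  have hfi : (Subgroup.center (G ⧸ N)).FiniteIndex := by
    by_cases h1 : ∃ p : ℤ, p ≠ 0 ∧ (QuotientGroup.mk' N a) ^ p = 1
    · obtain ⟨p, hp, hap⟩ := h1
      exact hI _ _ hcov' p hp (by rw [hap]; exact Subgroup.one_mem _)
    · push Not at h1
      have hinf' : Inf (QuotientGroup.mk' N a) := by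
        intro n hn
        by_contra h0
        exact h1 n h0 hn
      obtain ⟨n, hn1⟩ := Subgroup.ne_bot_iff_exists_ne_one.mp hN
      have hn := n.2
      obtain ⟨i, j, k, hg⟩ := hcov (n : G)
      have h2 : (QuotientGroup.mk' N a) ^ i * (QuotientGroup.mk' N x * (QuotientGroup.mk' N a) ^ j *
          (QuotientGroup.mk' N x)⁻¹) * (QuotientGroup.mk' N a) ^ k = 1 := by
        have h3 : QuotientGroup.mk' N (n : G) = 1 := (QuotientGroup.eq_one_iff _).mpr hn
        rw [hg] at h3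
        simpa only [map_mul, map_zpow, map_inv] using h3
      have h4 : QuotientGroup.mk' N x * (QuotientGroup.mk' N a) ^ j * (QuotientGroup.mk' N x)⁻¹ =
          (QuotientGroup.mk' N a) ^ (-(i + k)) := by
        have h5 : QuotientGroup.mk' N x * (QuotientGroup.mk' N a) ^ j * (QuotientGroup.mk' N x)⁻¹ =
            ((QuotientGroup.mk' N a) ^ i)⁻¹ * ((QuotientGroup.mk' N a) ^ i *
              (QuotientGroup.mk' N x * (QuotientGroup.mk' N a) ^ j *
              (QuotientGroup.mk' N x)⁻¹) * (QuotientGroup.mk' N a) ^ k) *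
              ((QuotientGroup.mk' N a) ^ k)⁻¹ := by group
        rw [h5, h2, mul_one, ← zpow_neg, ← zpow_neg, ← zpow_add]
        congr 1
        ring
      have hj : j ≠ 0 := by
        rintro rfl
        rw [zpow_zero, mul_one, mul_inv_cancel, mul_one, ← zpow_add] at h2
        have h6 := hinf' _ h2
        apply hn1
        apply Subtype.ext
        rw [hg, zpow_zero, mul_one, mul_inv_cancel, mul_one, ← zpow_add, h6, zpow_zero]
        rfl
      have hik : -(i + k) ≠ 0 := by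
        intro h6
        rw [h6, zpow_zero] at h4
        exact hj (hinf' j (conj_eq_one_iff.mp h4))
      exact hI _ _ hcov' j hj (hC _ _ hcov' hinf' j _ hj hik h4).2
  exact ⟨hfi, Quot.fin_comm hfi⟩

end Pool.Agent.Work.MP_302c96_al.Mal

-- ===== Norm
namespace Pool.Agent.Work.MP_302c96_al.Mal

universe u

theorem I_Norm : StNorm.{u} := by
  intro G _ a x hcov hinf hmal hx M hab hc1 hc2 hm0
  obtain ⟨m0, hm0M, hm0A⟩ := hm0
  -- step 0
  have hconj : ∀ k : ℤ, ∀ m ∈ M, a ^ k * m * a ^ (-k) ∈ M := by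
    intro k
    induction k using Int.induction_on with
    | zero => intro m hm; simpa using hm
    | succ n ih =>
      intro m hm
      have h := hc1 _ (ih m hm)
      have e : a * (a ^ (n : ℤ) * m * a ^ (-(n : ℤ))) * a⁻¹ =
          a ^ ((n : ℤ) + 1) * m * a ^ (-((n : ℤ) + 1)) := by
        rw [show (n : ℤ) + 1 = 1 + n by ring, zpow_add, neg_add, show (-1 : ℤ) + -(n:ℤ) = -(n:ℤ) + -1 by ring,
          zpow_add]
        simp [mul_assoc]
      rwa [e] at h
    | pred n ih =>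
      intro m hm
      have h := hc2 _ (ih m hm)
      have e : a⁻¹ * (a ^ (-(n : ℤ)) * m * a ^ (-(-(n : ℤ)))) * a =
          a ^ (-(n : ℤ) - 1) * m * a ^ (-(-(n : ℤ) - 1)) := by
        rw [show -(n : ℤ) - 1 = -1 + -n by ring, zpow_add, show -(-1 + -(n : ℤ)) = n + 1 by ring,
          zpow_add]
        simp [mul_assoc]
      rwa [e] at h
  -- step 1
  have hAM : ∀ n : ℤ, a ^ n ∈ M → n = 0 := by
    intro n hn
    by_contra h0
    apply hm0A
    refine hmal m0 n n h0 ?_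
    rw [hab m0 hm0M _ hn, mul_inv_cancel_right]
  -- step 2
  let J : AddSubgroup ℤ :=
    { carrier := {j | ∃ l : ℤ, x * a ^ j * x⁻¹ * a ^ l ∈ M}
      zero_mem' := ⟨0, by simp [M.one_mem]⟩
      add_mem' := by
        rintro j j' ⟨l, hl⟩ ⟨l', hl'⟩
        refine ⟨l + l', ?_⟩
        have h := M.mul_mem hl (hconj (-l) _ hl')
        have e : x * a ^ j * x⁻¹ * a ^ l * (a ^ (-l) * (x * a ^ j' * x⁻¹ * a ^ l') * a ^ (-(-l))) =
            x * a ^ (j + j') * x⁻¹ * a ^ (l + l') := by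
          rw [zpow_add, add_comm l l', zpow_add, neg_neg]
          simp [mul_assoc]
        rwa [e] at h
      neg_mem' := by
        rintro j ⟨l, hl⟩
        refine ⟨-l, ?_⟩
        have h := hconj l _ (M.inv_mem hl)
        have e : a ^ l * (x * a ^ j * x⁻¹ * a ^ l)⁻¹ * a ^ (-l) = x * a ^ (-j) * x⁻¹ * a ^ (-l) := by
          simp [mul_assoc]
        rwa [e] at h }
  have hJ : ∀ j : ℤ, j ∈ J ↔ ∃ l : ℤ, x * a ^ j * x⁻¹ * a ^ l ∈ M := fun j => Iff.rfl
  obtain ⟨p, hp⟩ := Int.subgroup_cyclic J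
  have hpJ : p ∈ J := by rw [hp]; exact AddSubgroup.subset_closure rfl
  have hdvd : ∀ j ∈ J, ∃ s : ℤ, j = p * s := by
    intro j hj
    rw [hp, AddSubgroup.mem_closure_singleton] at hj
    obtain ⟨n, hn⟩ := hj
    exact ⟨n, by rw [← hn, smul_eq_mul, mul_comm]⟩
  -- decomposition of elements of M
  have hdec : ∀ m ∈ M, ∃ i j k : ℤ, m = a ^ i * (x * a ^ j * x⁻¹) * a ^ k ∧
      x * a ^ j * x⁻¹ * a ^ (k + i) ∈ M := by
    intro m hm
    obtain ⟨i, j, k, h⟩ := hcov m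
    refine ⟨i, j, k, h, ?_⟩
    have h2 := hconj (-i) m hm
    rw [h] at h2
    have e : a ^ (-i) * (a ^ i * (x * a ^ j * x⁻¹) * a ^ k) * a ^ (-(-i)) =
        x * a ^ j * x⁻¹ * a ^ (k + i) := by
      rw [neg_neg, zpow_add a k i]
      simp [mul_assoc]
    rwa [e] at h2
  have hp0 : p ≠ 0 := by
    intro hp0
    obtain ⟨i, j, k, h, hM⟩ := hdec m0 hm0M
    obtain ⟨s, hs⟩ := hdvd j ⟨k + i, hM⟩
    rw [hp0, zero_mul] at hs
    rw [hs] at h hM
    apply hm0A
    refine ⟨i + k, ?_⟩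
    rw [h, zpow_add]
    simp
  obtain ⟨l0, hl0⟩ := (hJ p).1 hpJ
  obtain ⟨q, hq⟩ : ∃ q : ℤ, l0 = -q := ⟨-l0, by ring⟩
  rw [hq] at hl0
  set c : G := x * a ^ p * x⁻¹ * a ^ (-q) with hc
  have hq0 : q ≠ 0 := by
    intro hq0
    rw [hc, hq0, neg_zero, zpow_zero, mul_one] at hl0
    have h1 := hab _ (hc1 _ hl0) _ hl0
    have h2 : (x⁻¹ * a * x) * a ^ p * (x⁻¹ * a * x)⁻¹ * a ^ p * ((x⁻¹ * a * x) * a ^ p * (x⁻¹ * a * x)⁻¹)⁻¹ = a ^ p := by
      have e1 : (x⁻¹ * a * x) * a ^ p * (x⁻¹ * a * x)⁻¹ = x⁻¹ * (a * (x * a ^ p * x⁻¹) * a⁻¹) * x := by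
        simp [mul_assoc]
      have e2 : a ^ p = x⁻¹ * (x * a ^ p * x⁻¹) * x := by simp [mul_assoc]
      rw [e1]
      have e3 : x⁻¹ * (a * (x * a ^ p * x⁻¹) * a⁻¹) * x * a ^ p =
          a ^ p * (x⁻¹ * (a * (x * a ^ p * x⁻¹) * a⁻¹) * x) := by
        calc x⁻¹ * (a * (x * a ^ p * x⁻¹) * a⁻¹) * x * a ^ p
            = x⁻¹ * ((a * (x * a ^ p * x⁻¹) * a⁻¹) * (x * a ^ p * x⁻¹)) * x := by simp [mul_assoc]
          _ = x⁻¹ * ((x * a ^ p * x⁻¹) * (a * (x * a ^ p * x⁻¹) * a⁻¹)) * x := by rw [h1]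
          _ = _ := by simp [mul_assoc]
      rw [e3, mul_inv_cancel_right]
    obtain ⟨k, hk⟩ := hmal _ p p hp0 h2
    obtain ⟨k', hk'⟩ := hmal _ p k hp0 hk
    have h3 : x⁻¹ * a ^ (1 : ℤ) * (x⁻¹)⁻¹ = a ^ k' := by rw [zpow_one, inv_inv, hk']
    obtain ⟨k'', hk''⟩ := hmal _ 1 k' one_ne_zero h3
    exact hx ⟨-k'', by rw [zpow_neg, ← hk'', inv_inv]⟩
  -- step 4
  have hcs : ∀ s : ℤ, x * a ^ (p * s) * x⁻¹ * a ^ (-(q * s)) ∈ M := by
    intro s
    induction s using Int.induction_on with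
    | zero => simp [M.one_mem]
    | succ n ih =>
      have h := M.mul_mem hl0 (hconj q _ ih)
      have e : c * (a ^ q * (x * a ^ (p * (n : ℤ)) * x⁻¹ * a ^ (-(q * (n : ℤ)))) * a ^ (-q)) =
          x * a ^ (p * ((n : ℤ) + 1)) * x⁻¹ * a ^ (-(q * ((n : ℤ) + 1))) := by
        rw [hc, show p * ((n : ℤ) + 1) = p + p * n by ring, zpow_add a p,
          show -(q * ((n : ℤ) + 1)) = -(q * n) + -q by ring, zpow_add a (-(q * (n : ℤ)))]
        simp [mul_assoc]
      rwa [e] at h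
    | pred n ih =>
      have h := hconj (-q) _ (M.mul_mem (M.inv_mem hl0) ih)
      have e : a ^ (-q) * (c⁻¹ * (x * a ^ (p * (-(n : ℤ))) * x⁻¹ * a ^ (-(q * (-(n : ℤ)))))) * a ^ (-(-q)) =
          x * a ^ (p * (-(n : ℤ) - 1)) * x⁻¹ * a ^ (-(q * (-(n : ℤ) - 1))) := by
        rw [hc, show p * (-(n : ℤ) - 1) = -p + p * -n by ring, zpow_add a (-p),
          show -(q * (-(n : ℤ) - 1)) = -(q * -n) + q by ring, zpow_add a (-(q * -(n : ℤ)))]
        simp [mul_assoc]
      rwa [e] at h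
  refine ⟨c, hl0, q, hq0, ?_, ?_⟩
  · intro m hm k hk h
    have h1 : m * a ^ k * m⁻¹ = a ^ k := by
      have h2 : a ^ k * m = m * a ^ k := by
        calc a ^ k * m = a ^ k * m * a ^ (-k) * a ^ k := by simp
          _ = m * a ^ k := by rw [h]
      rw [← h2, mul_inv_cancel_right]
    obtain ⟨r, hr⟩ := hmal m k k hk h1
    rw [hr] at hm
    rw [hr, hAM r hm, zpow_zero]
  · intro m hm
    obtain ⟨i, j, k, h, hM⟩ := hdec m hm
    obtain ⟨s, hs⟩ := hdvd j ⟨k + i, hM⟩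
    rw [hs] at h hM
    have h1 := M.mul_mem (M.inv_mem (hcs s)) hM
    have e1 : (x * a ^ (p * s) * x⁻¹ * a ^ (-(q * s)))⁻¹ * (x * a ^ (p * s) * x⁻¹ * a ^ (k + i)) =
        a ^ (q * s + (k + i)) := by
      rw [zpow_add a (q * s)]
      simp [mul_assoc]
    rw [e1] at h1
    have h2 := hAM _ h1
    refine ⟨i, s, ?_⟩
    set d : G := x * a ^ (p * s) * x⁻¹ * a ^ (-(q * s)) with hd
    have hm2 : m = a ^ i * d * a ^ (-i) := by
      rw [h, hd, show k = -(q * s) + -i by linarith, zpow_add]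
      simp [mul_assoc]
    have hid : c * (a ^ q * d * a ^ (-q)) = d * (a ^ (q * s) * c * a ^ (-(q * s))) := by
      have e3 : c * (a ^ q * d * a ^ (-q)) = x * a ^ (p + p * s) * x⁻¹ * a ^ (-(q * s) + -q) := by
        rw [hc, hd, zpow_add a p, zpow_add a (-(q * s))]
        simp [mul_assoc]
      have e4 : d * (a ^ (q * s) * c * a ^ (-(q * s))) = x * a ^ (p * s + p) * x⁻¹ * a ^ (-q + -(q * s)) := by
        rw [hc, hd, zpow_add a (p * s), zpow_add a (-q)]
        simp [mul_assoc]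
      rw [e3, e4, add_comm p, add_comm (-(q * s))]
    have hcomm1 := hab c hl0 d (hcs s)
    have hu : (a ^ q * d * a ^ (-q)) ∈ M := hconj q d (hcs s)
    have hv : (a ^ (q * s) * c * a ^ (-(q * s))) ∈ M := hconj (q * s) c hl0
    have hmain : (a ^ q * d * a ^ (-q)) * d⁻¹ = (a ^ (q * s) * c * a ^ (-(q * s))) * c⁻¹ := by
      rw [mul_inv_eq_iff_eq_mul]
      calc (a ^ q * d * a ^ (-q)) = c⁻¹ * (c * (a ^ q * d * a ^ (-q))) := by rw [inv_mul_cancel_left]
        _ = c⁻¹ * (d * (a ^ (q * s) * c * a ^ (-(q * s)))) := by rw [hid]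
        _ = (d * (a ^ (q * s) * c * a ^ (-(q * s)))) * c⁻¹ :=
            hab _ (M.inv_mem hl0) _ (M.mul_mem (hcs s) hv)
        _ = d * ((a ^ (q * s) * c * a ^ (-(q * s))) * c⁻¹) := by rw [mul_assoc]
        _ = ((a ^ (q * s) * c * a ^ (-(q * s))) * c⁻¹) * d :=
            hab _ (hcs s) _ (M.mul_mem hv (M.inv_mem hl0))
    rw [← hmain, hm2]
    have e5 : a ^ q * (a ^ i * d * a ^ (-i)) * a ^ (-q) * (a ^ i * d * a ^ (-i))⁻¹ =
        a ^ (q + i) * d * a ^ (-(q + i)) * (a ^ i * d⁻¹ * a ^ (-i)) := by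
      rw [zpow_add, show -(q + i) = -i + -q by ring, zpow_add]
      simp [mul_assoc]
    have e6 : a ^ i * (a ^ q * d * a ^ (-q) * d⁻¹) * a ^ (-i) =
        a ^ (i + q) * d * a ^ (-(i + q)) * (a ^ i * d⁻¹ * a ^ (-i)) := by
      rw [zpow_add, show -(i + q) = -q + -i by ring, zpow_add a (-q)]
      simp [mul_assoc]
    rw [e5, e6, add_comm q i]

end Pool.Agent.Work.MP_302c96_al.Mal

-- ===== Modl
namespace Pool.Agent.Work.MP_302c96_al.Mal

universe u

namespace Modl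

open LaurentPolynomial

abbrev R : Type := LaurentPolynomial ℤ

theorem noeth : IsNoetherianRing R :=
  IsLocalization.isNoetherianRing (Submonoid.powers (Polynomial.X : Polynomial ℤ)) R inferInstance

/-- The monoid homomorphism given by `t`. -/
def mon {M : Type u} [AddCommGroup M] (t : ℤ → M →+ M) (h0 : ∀ m : M, t 0 m = m)
    (hadd : ∀ (i j : ℤ) (m : M), t (i + j) m = t i (t j m)) :
    Multiplicative ℤ →* AddMonoid.End M where
  toFun k := t (Multiplicative.toAdd k)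
  map_one' := by
    ext m
    exact h0 m
  map_mul' i j := by
    ext m
    exact hadd _ _ m

/-- The action of Laurent polynomials. -/
noncomputable def phi {M : Type u} [AddCommGroup M] (t : ℤ → M →+ M) (h0 : ∀ m : M, t 0 m = m)
    (hadd : ∀ (i j : ℤ) (m : M), t (i + j) m = t i (t j m)) : R →ₐ[ℤ] AddMonoid.End M :=
  AddMonoidAlgebra.lift ℤ _ _ (mon t h0 hadd)

theorem phi_T {M : Type u} [AddCommGroup M] (t : ℤ → M →+ M) (h0 : ∀ m : M, t 0 m = m)
    (hadd : ∀ (i j : ℤ) (m : M), t (i + j) m = t i (t j m)) (k : ℤ) (m : M) :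
    phi t h0 hadd (T k) m = t k m := by
  unfold phi T
  rw [AddMonoidAlgebra.lift_single]
  rw [one_smul]
  rfl

end Modl

open Modl in
theorem I_Mod : StMod.{u} := by
  intro M _ t c q hq h0 hadd hfree hrel hne
  obtain ⟨φ, hφ⟩ : ∃ φ : R →ₐ[ℤ] AddMonoid.End M, ∀ k m, φ (LaurentPolynomial.T k) m = t k m :=
    ⟨phi t h0 hadd, phi_T t h0 hadd⟩
  have hmul : ∀ (f g : R) (m : M), φ (f * g) m = φ f (φ g m) := by
    intro f g m
    rw [map_mul]
    rfl
  have hcomm : ∀ (f g : R) (m : M), φ f (φ g m) = φ g (φ f m) := by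
    intro f g m
    rw [← hmul, mul_comm, hmul]
  have hc0 : c ≠ 0 := by
    rintro rfl
    obtain ⟨m, hm⟩ := hne
    obtain ⟨i, s, his⟩ := hrel m
    rw [map_zero, sub_zero, map_zero, sub_eq_zero] at his
    exact hm (hfree q hq m his)
  let _ : Module R M := Module.compHom M φ.toRingHom
  have hsmul : ∀ (f : R) (m : M), f • m = φ f m := fun f m => rfl
  have hno : IsNoetherianRing R := noeth
  obtain ⟨P, hP, hcP⟩ := exists_le_isAssociatedPrime_of_isNoetherianRing R c hc0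
  rw [isAssociatedPrime_iff] at hP
  obtain ⟨hPp, x, hx⟩ := hP
  have hmemP : ∀ f : R, f ∈ P ↔ φ f x = 0 := by
    intro f
    rw [hx, Submodule.mem_colon_singleton, Submodule.mem_bot, hsmul]
  have hcP2 : ∀ f : R, φ f c = 0 → f ∈ P := by
    intro f hf
    apply hcP
    rw [Submodule.mem_colon_singleton, Submodule.mem_bot, hsmul]
    exact hf
  have hx0 : x ≠ 0 := by
    rintro rfl
    apply hPp.ne_top
    rw [Ideal.eq_top_iff_one, hmemP, map_zero]
  have hTT : ∀ k : ℤ, (LaurentPolynomial.T k : R) * LaurentPolynomial.T (-k) = 1 := by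
    intro k
    rw [← LaurentPolynomial.T_add, add_neg_cancel, LaurentPolynomial.T_zero]
  obtain ⟨U, hU⟩ : ∃ U : (R ⧸ P)ˣ, ∀ k : ℤ,
      ((U ^ k : (R ⧸ P)ˣ) : R ⧸ P) = Ideal.Quotient.mk P (LaurentPolynomial.T k) := by
    obtain ⟨V, hV⟩ : ∃ V : Rˣ, (V : R) = LaurentPolynomial.T 1 :=
      ⟨⟨LaurentPolynomial.T 1, LaurentPolynomial.T (-1), hTT 1, by rw [mul_comm]; exact hTT 1⟩,
        rfl⟩
    have hVk : ∀ k : ℤ, ((V ^ k : Rˣ) : R) = LaurentPolynomial.T k := by
      have hn : ∀ n : ℕ, ((V ^ n : Rˣ) : R) = LaurentPolynomial.T n := by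
        intro n
        rw [Units.val_pow_eq_pow_val, hV, LaurentPolynomial.T_pow, mul_one]
      intro k
      obtain ⟨n, rfl | rfl⟩ := k.eq_nat_or_neg
      · rw [zpow_natCast]
        exact hn n
      · have h1 : ((V ^ (-(n : ℤ)) : Rˣ) : R) * ((V ^ n : Rˣ) : R) = 1 := by
          rw [← Units.val_mul, ← zpow_natCast V n, ← zpow_add, neg_add_cancel, zpow_zero,
            Units.val_one]
        rw [hn] at h1
        have h2 : (LaurentPolynomial.T (-(n : ℤ)) : R) * LaurentPolynomial.T (n : ℤ) = 1 := by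
          rw [mul_comm]
          exact hTT n
        have h3 : IsUnit (LaurentPolynomial.T (n : ℤ) : R) := LaurentPolynomial.isUnit_T n
        exact h3.mul_right_cancel (h1.trans h2.symm)
    refine ⟨Units.map (Ideal.Quotient.mk P).toMonoidHom V, fun k => ?_⟩
    rw [← map_zpow, Units.coe_map]
    show Ideal.Quotient.mk P ((V ^ k : Rˣ) : R) = _
    rw [hVk]
  refine ⟨R ⧸ P, inferInstance, Ideal.Quotient.isDomain P, U, ?_, ?_⟩
  · intro k hk h1
    have h2 := hU k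
    rw [h1, Units.val_one, ← map_one (Ideal.Quotient.mk P), Ideal.Quotient.eq, hmemP, map_sub,
      map_one] at h2
    have h3 : x - t k x = 0 := by
      have h4 : (1 - φ (LaurentPolynomial.T k)) x = x - φ (LaurentPolynomial.T k) x := rfl
      rw [h4, hφ] at h2
      exact h2
    exact hx0 (hfree k hk x (sub_eq_zero.1 h3).symm)
  · intro y
    obtain ⟨f, rfl⟩ := Ideal.Quotient.mk_surjective y
    obtain ⟨i, s, his⟩ := hrel (φ f c)
    refine ⟨i + q * s, i, ?_⟩
    rw [hU, hU, hU, ← map_one (Ideal.Quotient.mk P), ← map_sub, ← map_mul, ← map_sub,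
      Ideal.Quotient.eq]
    apply hcP2
    have h5 : ((LaurentPolynomial.T q - 1) * f - (LaurentPolynomial.T (i + q * s) -
        LaurentPolynomial.T i) : R) = LaurentPolynomial.T q * f - f -
        (LaurentPolynomial.T (i + q * s) - LaurentPolynomial.T i) := by ring
    rw [h5]
    have h6 : ∀ (g h : R) (m : M), φ (g - h) m = φ g m - φ h m := by
      intro g h m
      rw [map_sub]
      rfl
    rw [h6, h6, h6, hmul, hφ, hφ, hφ, his, hadd, map_sub, sub_self]

end Pool.Agent.Work.MP_302c96_al.Mal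

-- ===== CharPp
namespace Pool.Agent.Work.MP_302c96_al.Mal

namespace CharPp

open Polynomial

theorem torsion {D : Type} [CommRing D] [IsDomain D] (p : ℕ) [Fact p.Prime] [Algebra (ZMod p) D]
    (T : Dˣ) (h : IsAlgebraic (ZMod p) (T : D)) : ∃ k : ℤ, k ≠ 0 ∧ T ^ k = 1 := by
  have hint : IsIntegral (ZMod p) (T : D) := h.isIntegral
  obtain ⟨S, hS⟩ : ∃ S : Submodule (ZMod p) D,
      S = Subalgebra.toSubmodule (Algebra.adjoin (ZMod p) {(T : D)}) := ⟨_, rfl⟩
  have hfg : S.FG := by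
    rw [hS]
    exact hint.fg_adjoin_singleton
  have hfin : Module.Finite (ZMod p) S := Module.Finite.iff_fg.2 hfg
  have hfin2 : Finite S := Module.finite_of_finite (ZMod p)
  have hmem : ∀ n : ℕ, (T : D) ^ n ∈ S := by
    intro n
    rw [hS]
    exact pow_mem (Algebra.subset_adjoin rfl : (T : D) ∈ Algebra.adjoin (ZMod p) {(T : D)}) n
  have hni := not_injective_infinite_finite (fun n : ℕ => (⟨(T : D) ^ n, hmem n⟩ : S))
  rw [Function.Injective] at hni
  push Not at hni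
  obtain ⟨m, n, he, hmn⟩ := hni
  have he2 : (T : D) ^ m = (T : D) ^ n := congrArg Subtype.val he
  have he3 : T ^ m = T ^ n := by
    apply Units.ext
    rw [Units.val_pow_eq_pow_val, Units.val_pow_eq_pow_val, he2]
  refine ⟨(m : ℤ) - n, by omega, ?_⟩
  rw [zpow_sub, zpow_natCast, zpow_natCast, he3, mul_inv_cancel]

end CharPp

open CharPp Polynomial in
theorem I_CharP : StCharP := by
  intro D _ _ p _ _ T q hq hT i j h
  letI : Algebra (ZMod p) D := ZMod.algebra D p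
  obtain ⟨N, hN⟩ : ∃ N : ℕ, N = i.natAbs + j.natAbs := ⟨_, rfl⟩
  obtain ⟨a, ha⟩ : ∃ a : ℕ, (a : ℤ) = i + N := ⟨(i + N).toNat, by omega⟩
  obtain ⟨b, hb⟩ : ∃ b : ℕ, (b : ℤ) = j + N := ⟨(j + N).toNat, by omega⟩
  have hkey : (T : D) ^ (3 * q + 1 + N) - (T : D) ^ (2 * q + 1 + N) + (T : D) ^ (q + N)
      - (T : D) ^ N - (T : D) ^ a + (T : D) ^ b = 0 := by
    have h1 : ((T ^ i : Dˣ) : D) * (T : D) ^ N = (T : D) ^ a := by
      rw [← Units.val_pow_eq_pow_val, ← Units.val_pow_eq_pow_val, ← Units.val_mul,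
        ← zpow_natCast T N, ← zpow_add, ← ha, zpow_natCast]
    have h2 : ((T ^ j : Dˣ) : D) * (T : D) ^ N = (T : D) ^ b := by
      rw [← Units.val_pow_eq_pow_val, ← Units.val_pow_eq_pow_val, ← Units.val_mul,
        ← zpow_natCast T N, ← zpow_add, ← hb, zpow_natCast]
    have h3 := congrArg (fun y => y * (T : D) ^ N) h
    simp only [sub_mul, h1, h2] at h3
    have h4 : (T : D) ^ (3 * q + 1 + N) - (T : D) ^ (2 * q + 1 + N) + (T : D) ^ (q + N)
      - (T : D) ^ N = (T : D) ^ q * (1 + (T : D) ^ (2 * q + 1)) * (T : D) ^ N -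
        1 * (1 + (T : D) ^ (2 * q + 1)) * (T : D) ^ N := by ring
    rw [h4, h3]
    ring
  obtain ⟨F, hF⟩ : ∃ F : (ZMod p)[X], F = X ^ (3 * q + 1 + N) - X ^ (2 * q + 1 + N) +
      X ^ (q + N) - X ^ N - X ^ a + X ^ b := ⟨_, rfl⟩
  have hF0 : F ≠ 0 := by
    intro h0
    have hc : ∀ e : ℕ, (if e = 3 * q + 1 + N then (1 : ZMod p) else 0) -
        (if e = 2 * q + 1 + N then 1 else 0) + (if e = q + N then 1 else 0) -
        (if e = N then 1 else 0) - (if e = a then 1 else 0) + (if e = b then 1 else 0) = 0 := by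
      intro e
      have := congrArg (fun G => coeff G e) (hF.symm.trans h0)
      simpa only [coeff_add, coeff_sub, coeff_X_pow, coeff_zero] using this
    have hone : (1 : ZMod p) ≠ 0 := one_ne_zero
    have e1 : 3 * q + 1 + N = a ∨ 3 * q + 1 + N = b := by
      by_contra hcon
      push Not at hcon
      have h1 := hc (3 * q + 1 + N)
      rw [if_pos rfl, if_neg (by omega), if_neg (by omega), if_neg (by omega), if_neg hcon.1,
        if_neg hcon.2] at h1
      simp at h1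
    have e2 : 2 * q + 1 + N = a ∨ 2 * q + 1 + N = b := by
      by_contra hcon
      push Not at hcon
      have h1 := hc (2 * q + 1 + N)
      rw [if_neg (by omega), if_pos rfl, if_neg (by omega), if_neg (by omega), if_neg hcon.1,
        if_neg hcon.2] at h1
      simp at h1
    have e3 : q + N = a ∨ q + N = b := by
      by_contra hcon
      push Not at hcon
      have h1 := hc (q + N)
      rw [if_neg (by omega), if_neg (by omega), if_pos rfl, if_neg (by omega), if_neg hcon.1,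
        if_neg hcon.2] at h1
      simp at h1
    omega
  have halg : IsAlgebraic (ZMod p) (T : D) := by
    refine ⟨F, hF0, ?_⟩
    rw [hF]
    simp only [map_add, map_sub, map_pow, aeval_X]
    exact hkey
  obtain ⟨k, hk, hk2⟩ := torsion p T halg
  exact hT k hk hk2

end Pool.Agent.Work.MP_302c96_al.Mal

-- ===== NonInt
/-! MP_302c96_al, project Mal, item NonInt: bound for the exponents when `T` is not integral. -/


namespace Pool.Agent.Work.MP_302c96_al.Mal

namespace NonInt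

open Polynomial

theorem int_of_rel {D : Type} [CommRing D] (T : Dˣ) (c : ℤ) (q : ℕ) (i j : ℤ) (hij : j < i)
    (hq : (q : ℤ) < i)
    (h : ((T ^ i : Dˣ) : D) = (c : D) * ((T : D) ^ q - 1) + ((T ^ j : Dˣ) : D)) :
    IsIntegral ℤ (T : D) := by
  obtain ⟨r, hr⟩ : ∃ r : ℤ, r = min j 0 := ⟨_, rfl⟩
  obtain ⟨N, hN⟩ : ∃ N : ℕ, i - r = ((N + 1 : ℕ) : ℤ) := ⟨(i - r - 1).toNat, by omega⟩
  obtain ⟨A, hA⟩ : ∃ A : ℕ, (q : ℤ) - r = A := ⟨((q : ℤ) - r).toNat, by omega⟩
  obtain ⟨B, hB⟩ : ∃ B : ℕ, - r = B := ⟨(-r).toNat, by omega⟩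
  obtain ⟨E, hE⟩ : ∃ E : ℕ, j - r = E := ⟨(j - r).toNat, by omega⟩
  have hrel : (T : D) ^ (N + 1) = (c : D) * ((T : D) ^ A - (T : D) ^ B) + (T : D) ^ E := by
    have e1 : (T : D) ^ (N + 1) = ((T ^ i : Dˣ) : D) * ((T ^ (-r) : Dˣ) : D) := by
      rw [← Units.val_mul, ← zpow_add, ← sub_eq_add_neg, hN, zpow_natCast, Units.val_pow_eq_pow_val]
    have e2 : (T : D) ^ A = (T : D) ^ q * ((T ^ (-r) : Dˣ) : D) := by
      rw [← Units.val_pow_eq_pow_val, ← Units.val_pow_eq_pow_val, ← Units.val_mul, ← zpow_natCast,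
        ← zpow_natCast, ← zpow_add, ← sub_eq_add_neg, hA]
    have e3 : (T : D) ^ B = ((T ^ (-r) : Dˣ) : D) := by
      rw [hB, zpow_natCast, Units.val_pow_eq_pow_val]
    have e4 : (T : D) ^ E = ((T ^ j : Dˣ) : D) * ((T ^ (-r) : Dˣ) : D) := by
      rw [← Units.val_mul, ← zpow_add, ← sub_eq_add_neg, hE, zpow_natCast,
        Units.val_pow_eq_pow_val]
    rw [e1, e2, e3, e4, h]
    ring
  refine ⟨X ^ (N + 1) - (C c * (X ^ A - X ^ B) + X ^ E), monic_X_pow_sub ?_, ?_⟩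
  · refine lt_of_le_of_lt (b := ((N : ℕ) : WithBot ℕ)) ?_
      (by exact_mod_cast Nat.lt_succ_self N)
    apply degree_le_of_natDegree_le
    have hA' : A ≤ N := by omega
    have hB' : B ≤ N := by omega
    have hE' : E ≤ N := by omega
    have h1 : (X ^ A - X ^ B : ℤ[X]).natDegree ≤ N :=
      (natDegree_sub_le_of_le ((natDegree_X_pow_le _).trans hA')
        ((natDegree_X_pow_le _).trans hB')).trans (le_of_eq (max_self N))
    exact natDegree_add_le_of_degree_le ((natDegree_C_mul_le _ _).trans h1)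
      ((natDegree_X_pow_le _).trans hE')
  · simp only [eval₂_sub, eval₂_add, eval₂_mul, eval₂_pow, eval₂_X, eval₂_C]
    rw [hrel]
    simp

end NonInt

theorem I_NonInt : StNonInt := by
  intro D _ _ _ T q hq hT hint n hn i j h
  have hn0 : (n : D) ≠ 0 := by
    rw [Nat.cast_ne_zero]
    omega
  have hTq : (T : D) ^ q - 1 ≠ 0 := by
    intro h0
    apply hT q (by exact_mod_cast hq.ne')
    ext
    rw [zpow_natCast, Units.val_pow_eq_pow_val, Units.val_one]
    exact sub_eq_zero.1 h0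
  have hne : i ≠ j := by
    rintro rfl
    rw [sub_self] at h
    rcases mul_eq_zero.1 h with h1 | h1
    · exact hTq h1
    · exact hn0 h1
  by_contra hcon
  apply hint
  rcases lt_or_gt_of_ne hne with hlt | hlt
  · apply NonInt.int_of_rel T (-(n : ℤ)) q j i hlt (by omega)
    push_cast
    linear_combination h
  · apply NonInt.int_of_rel T (n : ℤ) q i j hlt (by omega)
    push_cast
    linear_combination -h

end Pool.Agent.Work.MP_302c96_al.Mal

-- ===== Kron
/-! Item R3 (Kronecker) of project Mal (helper17). -/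


namespace Pool.Agent.Work.MP_302c96_al.Mal

open Polynomial

namespace Kron

theorem field {F : Type} [Field F] [CharZero F] (t : F) (ht : IsIntegral ℤ t) (ht0 : t ≠ 0)
    (hr : ∀ n : ℕ, 0 < n → t ^ n ≠ 1) :
    ∃ z : ℂ, 1 < ‖z‖ ∧ ∀ f : Polynomial ℤ, eval₂ (Int.castRingHom F) t f = 0 →
      Polynomial.aeval z f = 0 := by
  have htQ : IsIntegral ℚ t := ht.tower_top
  let K := IntermediateField.adjoin ℚ {t}
  have hfd : FiniteDimensional ℚ K := IntermediateField.adjoin.finiteDimensional htQ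
  have hK : NumberField K := { }
  let y : K := IntermediateField.AdjoinSimple.gen ℚ t
  have hy : algebraMap K F y = t := IntermediateField.AdjoinSimple.algebraMap_gen ℚ t
  have hKinj : Function.Injective (algebraMap K F) := (algebraMap K F).injective
  have hyint : IsIntegral ℤ y := by
    have h1 : IsIntegral ℤ ((algebraMap K F).toIntAlgHom y) := by
      change IsIntegral ℤ (algebraMap K F y)
      rw [hy]
      exact ht
    exact (isIntegral_algHom_iff (algebraMap K F).toIntAlgHom hKinj).1 h1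
  have hy0 : y ≠ 0 := by
    intro h
    rw [h, map_zero] at hy
    exact ht0 hy.symm
  have hex : ∃ φ : K →+* ℂ, 1 < ‖φ y‖ := by
    by_contra hcon
    push Not at hcon
    obtain ⟨n, hn, h1⟩ := NumberField.Embeddings.pow_eq_one_of_norm_le_one K ℂ hy0 hyint hcon
    exact hr n hn (by rw [← hy, ← map_pow, h1, map_one])
  obtain ⟨φ, hφ⟩ := hex
  refine ⟨φ y, hφ, ?_⟩
  intro f hf
  have h2 : eval₂ (Int.castRingHom K) y f = 0 := by
    apply hKinj
    rw [map_zero, Polynomial.hom_eval₂, hy]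
    have : (algebraMap K F).comp (Int.castRingHom K) = Int.castRingHom F := RingHom.ext_int _ _
    rw [this]
    exact hf
  have h3 : φ (eval₂ (Int.castRingHom K) y f) = aeval (φ y) f := by
    rw [Polynomial.hom_eval₂, Polynomial.aeval_def]
    congr 1
    exact RingHom.ext_int _ _
  rw [← h3, h2, map_zero]

end Kron

theorem I_Kron : StKron := by
  intro D _ _ _ T hT hint
  have hinj : Function.Injective (algebraMap D (FractionRing D)) :=
    IsFractionRing.injective D (FractionRing D)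
  have hF : CharZero (FractionRing D) := charZero_of_injective_algebraMap hinj
  obtain ⟨z, hz, hz2⟩ := Kron.field (F := FractionRing D) (algebraMap D (FractionRing D) (T : D))
    (by
      obtain ⟨p, hp, hp2⟩ := hint
      refine ⟨p, hp, ?_⟩
      have h1 := congrArg (algebraMap D (FractionRing D)) hp2
      rw [Polynomial.hom_eval₂, map_zero] at h1
      have h2 : (algebraMap D (FractionRing D)).comp (algebraMap ℤ D) =
          @algebraMap ℤ (FractionRing D) _ _ (Ring.toIntAlgebra _) := RingHom.ext_int _ _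
      rw [h2] at h1
      exact h1)
    (by
      intro h
      have h1 : (T : D) = 0 := hinj (by rw [map_zero]; exact h)
      exact T.ne_zero h1)
    (by
      intro n hn h2
      have h3 : (T : D) ^ n = 1 := by
        apply hinj
        rw [map_pow, map_one]
        exact h2
      have h4 : T ^ (n : ℤ) = 1 := by
        rw [zpow_natCast]
        ext
        push_cast
        exact h3
      exact hT n (by exact_mod_cast hn.ne') h4)
  refine ⟨z, hz, fun f hf => hz2 f ?_⟩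
  have h1 := congrArg (algebraMap D (FractionRing D)) hf
  rw [Polynomial.aeval_def, Polynomial.hom_eval₂, map_zero] at h1
  have h2 : (algebraMap D (FractionRing D)).comp (algebraMap ℤ D) =
      Int.castRingHom (FractionRing D) := RingHom.ext_int _ _
  rw [h2] at h1
  exact h1

end Pool.Agent.Work.MP_302c96_al.Mal

-- ===== CBound
namespace Pool.Agent.Work.MP_302c96_al.Mal

namespace CBound

theorem low (z : ℂ) (hz : 1 < ‖z‖) (i j : ℤ) (hij : j < i) :
    ‖z‖ ^ i * (1 - ‖z‖⁻¹) ≤ ‖z ^ i - z ^ j‖ := by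
  have h0 : 0 < ‖z‖ := by linarith
  have h1 : ‖z ^ i‖ - ‖z ^ j‖ ≤ ‖z ^ i - z ^ j‖ := norm_sub_norm_le _ _
  rw [norm_zpow, norm_zpow] at h1
  have h2 : ‖z‖ ^ j ≤ ‖z‖ ^ (i - 1) := zpow_le_zpow_right₀ hz.le (by omega)
  rw [zpow_sub_one₀ h0.ne'] at h2
  linarith

theorem one (z : ℂ) (hz : 1 < ‖z‖) (q : ℕ) (n : ℕ) (i j : ℤ) (hij : j < i)
    (h : ‖z ^ i - z ^ j‖ ≤ (‖z‖ ^ q + 1) * n) :
    ‖z‖ ^ i ≤ (‖z‖ ^ q + 1) / (1 - ‖z‖⁻¹) * n := by
  have h0 : 0 < ‖z‖ := by linarith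
  have h1 : 0 < 1 - ‖z‖⁻¹ := by
    have := inv_lt_one_of_one_lt₀ hz
    linarith
  have h2 := (low z hz i j hij).trans h
  rw [div_mul_eq_mul_div, le_div_iff₀ h1]
  exact h2

theorem fin (r C0 : ℝ) (hr : 1 < r) (hC0 : 0 < C0) (C : ℕ)
    (hC : (|Real.log C0| + Real.log 2) / Real.log r ≤ C) (n : ℕ) (hn : 0 < n) (i : ℤ)
    (h : r ^ i ≤ C0 * n) : i ≤ C * (1 + Nat.log 2 n) := by
  have hlr : 0 < Real.log r := Real.log_pos hr
  have hn0 : (0 : ℝ) < n := by exact_mod_cast hn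
  have h1 : (i : ℝ) * Real.log r ≤ Real.log C0 + Real.log n := by
    have := Real.log_le_log (zpow_pos (by linarith) i) h
    rwa [Real.log_zpow, Real.log_mul hC0.ne' hn0.ne'] at this
  have h2 : Real.log n ≤ (1 + (Nat.log 2 n : ℕ)) * Real.log 2 := by
    have h3 : n < 2 ^ (Nat.log 2 n + 1) := Nat.lt_pow_succ_log_self (by norm_num) n
    have h4 : (n : ℝ) ≤ 2 ^ (Nat.log 2 n + 1) := by exact_mod_cast h3.le
    have h5 := Real.log_le_log hn0 h4
    rw [Real.log_pow] at h5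
    push_cast at h5
    linarith
  have hl2 : 0 < Real.log 2 := Real.log_pos (by norm_num)
  have hL : (0 : ℝ) ≤ (Nat.log 2 n : ℕ) := Nat.cast_nonneg _
  have h6 : (i : ℝ) * Real.log r ≤ (|Real.log C0| + Real.log 2) * (1 + (Nat.log 2 n : ℕ)) := by
    have h7 := le_abs_self (Real.log C0)
    have h8 := abs_nonneg (Real.log C0)
    nlinarith
  have h9 : |Real.log C0| + Real.log 2 ≤ C * Real.log r := by
    rwa [div_le_iff₀ hlr] at hC
  have h10 : (i : ℝ) * Real.log r ≤ (C * (1 + (Nat.log 2 n : ℕ))) * Real.log r := by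
    nlinarith
  have h11 : (i : ℝ) ≤ C * (1 + (Nat.log 2 n : ℕ)) := le_of_mul_le_mul_right h10 hlr
  exact_mod_cast h11

end CBound

open CBound in
theorem I_CBound : StCBound := by
  intro z hz q hq
  have h0 : 0 < ‖z‖ := by linarith
  have h1 : 0 < 1 - ‖z‖⁻¹ := by
    have := inv_lt_one_of_one_lt₀ hz
    linarith
  obtain ⟨C0, hC0⟩ : ∃ C0 : ℝ, C0 = (‖z‖ ^ q + 1) / (1 - ‖z‖⁻¹) := ⟨_, rfl⟩
  have hC0p : 0 < C0 := by rw [hC0]; positivity
  obtain ⟨C, hC⟩ := exists_nat_ge ((|Real.log C0| + Real.log 2) / Real.log ‖z‖)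
  refine ⟨C, ?_⟩
  intro n hn i j h
  have hzq : z ^ q ≠ 1 := by
    intro h2
    have h3 : ‖z‖ ^ q = 1 := by rw [← norm_pow, h2, norm_one]
    have h4 : 1 < ‖z‖ ^ q := one_lt_pow₀ hz (by omega)
    linarith
  have hne : i ≠ j := by
    rintro rfl
    rw [sub_self] at h
    rcases mul_eq_zero.1 h with h | h
    · exact hzq (sub_eq_zero.1 h)
    · have : n = 0 := by exact_mod_cast h
      omega
  have hb : ‖z ^ i - z ^ j‖ ≤ (‖z‖ ^ q + 1) * n := by
    rw [← h, norm_mul]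
    have h5 : ‖(n : ℂ)‖ = n := by simp
    rw [h5]
    refine mul_le_mul_of_nonneg_right ?_ (Nat.cast_nonneg n)
    calc ‖z ^ q - 1‖ ≤ ‖z ^ q‖ + ‖(1 : ℂ)‖ := norm_sub_le _ _
      _ = ‖z‖ ^ q + 1 := by rw [norm_pow, norm_one]
  have hb' : ‖z ^ j - z ^ i‖ ≤ (‖z‖ ^ q + 1) * n := by rwa [norm_sub_rev]
  rcases lt_or_gt_of_ne hne with hlt | hlt
  · have h6 := one z hz q n j i hlt hb'
    rw [← hC0] at h6
    have h7 := fin ‖z‖ C0 hz hC0p C hC n hn j h6
    exact ⟨by omega, h7⟩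
  · have h6 := one z hz q n i j hlt hb
    rw [← hC0] at h6
    have h7 := fin ‖z‖ C0 hz hC0p C hC n hn i h6
    exact ⟨h7, by omega⟩

end Pool.Agent.Work.MP_302c96_al.Mal

-- ===== Upper
/-! Item R5: upper bound in all cases. -/

namespace Pool.Agent.Work.MP_302c96_al.Mal

namespace Upper

open Polynomial

theorem unit_pow {D : Type} [CommRing D] (T : Dˣ) (N : ℕ) (i : ℤ) (h : 0 ≤ i + N) :
    (T : D) ^ N * ((T ^ i : Dˣ) : D) = (T : D) ^ (i + N).toNat := by
  have h1 : (T ^ N * T ^ i : Dˣ) = T ^ (i + N).toNat := by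
    rw [← zpow_natCast T N, ← zpow_add, ← zpow_natCast T (i + N).toNat, Int.toNat_of_nonneg h,
      add_comm]
  have h2 := congrArg (fun u : Dˣ => (u : D)) h1
  simpa using h2

theorem field_pow (z : ℂ) (hz : z ≠ 0) (N : ℕ) (i : ℤ) (h : 0 ≤ i + N) :
    z ^ (i + N).toNat = z ^ N * z ^ i := by
  rw [← zpow_natCast z (i + N).toNat, Int.toNat_of_nonneg h, zpow_add₀ hz, zpow_natCast, mul_comm]

theorem rel {D : Type} [CommRing D] (T : Dˣ) (q n : ℕ) (i j : ℤ) (z : ℂ) (hz : z ≠ 0)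
    (hf : ∀ f : Polynomial ℤ, Polynomial.aeval (T : D) f = 0 → Polynomial.aeval z f = 0)
    (h : ((T : D) ^ q - 1) * (n : D) = (T ^ i : Dˣ) - (T ^ j : Dˣ)) :
    (z ^ q - 1) * (n : ℂ) = z ^ i - z ^ j := by
  have hi : 0 ≤ i + ((i.natAbs + j.natAbs : ℕ) : ℤ) := by omega
  have hj : 0 ≤ j + ((i.natAbs + j.natAbs : ℕ) : ℤ) := by omega
  set N : ℕ := i.natAbs + j.natAbs with hN
  have e1 := unit_pow T N i hi
  have e2 := unit_pow T N j hj
  have h0 : Polynomial.aeval (T : D) (((X : Polynomial ℤ) ^ q - 1) * (n : Polynomial ℤ) * X ^ N -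
      X ^ (i + N).toNat + X ^ (j + N).toNat) = 0 := by
    simp only [map_add, map_sub, map_mul, map_pow, aeval_X, map_one, map_natCast]
    rw [h, ← e1, ← e2]
    ring
  have h1 := hf _ h0
  simp only [map_add, map_sub, map_mul, map_pow, aeval_X, map_one, map_natCast] at h1
  rw [field_pow z hz N i hi, field_pow z hz N j hj] at h1
  have h2 : z ^ N * ((z ^ q - 1) * (n : ℂ)) = z ^ N * (z ^ i - z ^ j) := by
    linear_combination h1
  exact mul_left_cancel₀ (pow_ne_zero _ hz) h2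

end Upper

theorem I_Upper (h2 : StNonInt) (h3 : StKron) (h4 : StCBound) : StUpper := by
  intro D _ _ _ T q hq hT
  by_cases hint : IsIntegral ℤ (T : D)
  · obtain ⟨z, hz1, hz⟩ := h3 T hT hint
    have hz0 : z ≠ 0 := by
      intro h0
      rw [h0, norm_zero] at hz1
      linarith
    obtain ⟨C, hC⟩ := h4 z hz1 q hq
    refine ⟨C, fun n hn i j h => hC n hn i j ?_⟩
    exact Upper.rel T q n i j z hz0 hz h
  · refine ⟨q, fun n hn i j h => ?_⟩
    obtain ⟨h5, h6⟩ := h2 T q hq hT hint n hn i j h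
    have h7 : (q : ℤ) ≤ q * (1 + Nat.log 2 n) := by
      have h8 : (0 : ℤ) ≤ (Nat.log 2 n : ℤ) := Int.natCast_nonneg _
      have h9 : (0 : ℤ) ≤ (q : ℤ) := Int.natCast_nonneg _
      nlinarith
    exact ⟨h5.trans h7, h6.trans h7⟩

end Pool.Agent.Work.MP_302c96_al.Mal

-- ===== Count
namespace Pool.Agent.Work.MP_302c96_al.Mal

namespace Count

theorem big (K : ℕ) : ∃ s : ℕ, (K * (1 + s)) ^ 2 < 2 ^ s := by
  have h := tendsto_pow_const_div_const_pow_of_one_lt 2 (r := (2 : ℝ)) (by norm_num)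
  have hpos : (0 : ℝ) < 1 / (2 * (K : ℝ) ^ 2 + 1) := by positivity
  obtain ⟨n, hn1, hn2⟩ := ((h.eventually (gt_mem_nhds hpos)).and
    (Filter.eventually_ge_atTop 1)).exists
  refine ⟨n - 1, ?_⟩
  have h2 : (0 : ℝ) < 2 ^ n := by positivity
  rw [div_lt_div_iff₀ h2 (by positivity)] at hn1
  have h3 : (n : ℝ) ^ 2 * (2 * (K : ℝ) ^ 2) < 2 ^ n := by nlinarith [sq_nonneg (n : ℝ)]
  have h4 : n ^ 2 * (2 * K ^ 2) < 2 ^ n := by exact_mod_cast h3
  obtain ⟨m, rfl⟩ : ∃ m, n = m + 1 := ⟨n - 1, by omega⟩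
  rw [pow_succ 2 m] at h4
  have h5 : m + 1 - 1 = m := by omega
  rw [h5]
  have h6 : (K * (1 + m)) ^ 2 = (m + 1) ^ 2 * K ^ 2 := by ring
  rw [h6]
  have h7 : (m + 1) ^ 2 * (2 * K ^ 2) = 2 * ((m + 1) ^ 2 * K ^ 2) := by ring
  omega

end Count

open Pool.Agent.Work.MP_302c96_al.Mal.Count in
theorem I_Count : StCount := by
  intro f C hinj hall
  obtain ⟨s, hs⟩ := big (2 * C + 1)
  obtain ⟨B, hB⟩ : ∃ B : ℕ, B = C * (1 + s) := ⟨_, rfl⟩
  have hmaps : ∀ n ∈ Finset.Icc 1 (2 ^ s), f n ∈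
      (Finset.Icc (-(B : ℤ)) B) ×ˢ (Finset.Icc (-(B : ℤ)) B) := by
    intro n hn
    rw [Finset.mem_Icc] at hn
    obtain ⟨h1, h2⟩ := hall n (by omega)
    have h3 : Nat.log 2 n ≤ s := by
      have := Nat.log_mono_right (b := 2) hn.2
      rwa [Nat.log_pow (by norm_num)] at this
    have h4 : (C : ℤ) * (1 + (Nat.log 2 n : ℕ)) ≤ B := by
      rw [hB]
      push_cast
      have : ((Nat.log 2 n : ℕ) : ℤ) ≤ s := by exact_mod_cast h3
      have hC : (0 : ℤ) ≤ C := Int.natCast_nonneg C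
      nlinarith
    rw [Finset.mem_product, Finset.mem_Icc, Finset.mem_Icc]
    have h5 := abs_le.1 (h1.trans h4)
    have h6 := abs_le.1 (h2.trans h4)
    exact ⟨h5, h6⟩
  have hcard := Finset.card_le_card_of_injOn f hmaps (by
    intro m hm n hn h
    rw [Finset.coe_Icc, Set.mem_Icc] at hm hn
    exact hinj m n (by omega) (by omega) h)
  rw [Finset.card_product, Int.card_Icc, Nat.card_Icc] at hcard
  have h8 : ((B : ℤ) + 1 - -(B : ℤ)).toNat = 2 * B + 1 := by omega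
  rw [h8] at hcard
  have h9 : 2 * B + 1 ≤ (2 * C + 1) * (1 + s) := by
    rw [hB]
    nlinarith [Nat.zero_le s]
  have h10 : (2 * B + 1) * (2 * B + 1) ≤ ((2 * C + 1) * (1 + s)) ^ 2 := by
    rw [sq]
    exact Nat.mul_le_mul h9 h9
  omega

end Pool.Agent.Work.MP_302c96_al.Mal

-- ===== RingL
/-! Project Mal (MP_302c96_al): the ring lemma. -/


namespace Pool.Agent.Work.MP_302c96_al.Mal

namespace RingL

variable {D : Type} [CommRing D] [IsDomain D]

theorem pow_ne (T : Dˣ) (q : ℕ) (hq : 0 < q) (hT : ∀ k : ℤ, k ≠ 0 → T ^ k ≠ 1) :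
    (T : D) ^ q - 1 ≠ 0 := by
  intro h
  apply hT (q : ℤ) (by exact_mod_cast hq.ne')
  ext
  rw [zpow_natCast, Units.val_pow_eq_pow_val, Units.val_one]
  exact sub_eq_zero.1 h

theorem inv_ne (T : Dˣ) (hT : ∀ k : ℤ, k ≠ 0 → T ^ k ≠ 1) :
    ∀ k : ℤ, k ≠ 0 → T⁻¹ ^ k ≠ 1 := by
  intro k hk h
  rw [inv_zpow, inv_eq_one] at h
  exact hT k hk h

theorem inv_rel (T : Dˣ) (q : ℕ) (n : ℕ) (i j : ℤ)
    (h : ((T : D) ^ q - 1) * (n : D) = ((T ^ i : Dˣ) : D) - ((T ^ j : Dˣ) : D)) :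
    (((T⁻¹ : Dˣ) : D) ^ q - 1) * (n : D) =
      ((T⁻¹ ^ ((q : ℤ) - j) : Dˣ) : D) - ((T⁻¹ ^ ((q : ℤ) - i) : Dˣ) : D) := by
  have e1 : (T⁻¹ ^ ((q : ℤ) - j) : Dˣ) = T⁻¹ ^ q * T ^ j := by
    rw [zpow_sub, inv_zpow, inv_zpow, inv_inv, zpow_natCast, inv_pow]
  have e2 : (T⁻¹ ^ ((q : ℤ) - i) : Dˣ) = T⁻¹ ^ q * T ^ i := by
    rw [zpow_sub, inv_zpow, inv_zpow, inv_inv, zpow_natCast, inv_pow]
  have e3 : ((T⁻¹ : Dˣ) : D) ^ q * (T : D) ^ q = 1 := by
    rw [← mul_pow, Units.inv_mul, one_pow]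
  rw [e1, e2, Units.val_mul, Units.val_mul, Units.val_pow_eq_pow_val]
  linear_combination (-((T⁻¹ : Dˣ) : D) ^ q) * h + (n : D) * e3

theorem natCase (h1 : StCharP) (h5 : StUpper) (h6 : StCount) (T : Dˣ) (q : ℕ) (hq : 0 < q)
    (hT : ∀ k : ℤ, k ≠ 0 → T ^ k ≠ 1) :
    ¬ ∀ y : D, ∃ i j : ℤ, ((T : D) ^ q - 1) * y = ((T ^ i : Dˣ) : D) - ((T ^ j : Dˣ) : D) := by
  intro h
  obtain ⟨p, hp⟩ := CharP.exists D
  rcases CharP.char_is_prime_or_zero D p with hpr | hp0
  · haveI : Fact p.Prime := ⟨hpr⟩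
    obtain ⟨i, j, hij⟩ := h (1 + (T : D) ^ (2 * q + 1))
    exact h1 p T q hq hT i j hij
  · subst hp0
    haveI : CharZero D := CharP.charP_to_charZero D
    choose I J hIJ using fun n : ℕ => h (n : D)
    obtain ⟨C1, hC1⟩ := h5 T q hq hT
    obtain ⟨C2, hC2⟩ := h5 T⁻¹ q hq (inv_ne T hT)
    refine h6 (fun n => (I n, J n)) (C1 + C2) ?_ ?_
    · intro m n _ _ hmn
      have e1 : I m = I n := congrArg Prod.fst hmn
      have e2 : J m = J n := congrArg Prod.snd hmn
      have e3 : ((T : D) ^ q - 1) * (m : D) = ((T : D) ^ q - 1) * (n : D) := by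
        rw [hIJ m, hIJ n, e1, e2]
      have e4 := mul_left_cancel₀ (pow_ne T q hq hT) e3
      exact_mod_cast e4
    · intro n hn
      obtain ⟨a1, a2⟩ := hC1 n hn (I n) (J n) (hIJ n)
      obtain ⟨b1, b2⟩ := hC2 n hn _ _ (inv_rel T q n (I n) (J n) (hIJ n))
      have hL : (0 : ℤ) ≤ 1 + (Nat.log 2 n : ℤ) := by positivity
      have hC1' : (0 : ℤ) ≤ (C1 : ℤ) * (1 + (Nat.log 2 n : ℤ)) := by positivity
      have hC2' : (0 : ℤ) ≤ (C2 : ℤ) * (1 + (Nat.log 2 n : ℤ)) := by positivity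
      have hq' : (0 : ℤ) ≤ (q : ℤ) := by positivity
      push_cast at *
      constructor
      · rw [abs_le]; constructor <;> nlinarith
      · rw [abs_le]; constructor <;> nlinarith

end RingL

theorem I_Ring (h1 : StCharP) (h5 : StUpper) (h6 : StCount) : StRing := by
  intro D _ _ T q hq hT h
  rcases lt_or_gt_of_ne hq with hneg | hpos
  · obtain ⟨r, hr⟩ : ∃ r : ℕ, q = -(r : ℤ) := ⟨(-q).toNat, by omega⟩
    have hr0 : 0 < r := by omega
    refine RingL.natCase h1 h5 h6 T r hr0 hT fun y => ?_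
    obtain ⟨i, j, hij⟩ := h y
    refine ⟨j + r, i + r, ?_⟩
    have e1 : ((T ^ q : Dˣ) : D) * (T : D) ^ r = 1 := by
      rw [← Units.val_pow_eq_pow_val, ← Units.val_mul, hr, ← zpow_natCast T r, ← zpow_add,
        neg_add_cancel, zpow_zero, Units.val_one]
    have e2 : ((T ^ (j + r) : Dˣ) : D) = ((T ^ j : Dˣ) : D) * (T : D) ^ r := by
      rw [zpow_add, zpow_natCast, Units.val_mul, Units.val_pow_eq_pow_val]
    have e3 : ((T ^ (i + r) : Dˣ) : D) = ((T ^ i : Dˣ) : D) * (T : D) ^ r := by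
      rw [zpow_add, zpow_natCast, Units.val_mul, Units.val_pow_eq_pow_val]
    rw [e2, e3]
    linear_combination (-(T : D) ^ r) * hij + y * e1
  · obtain ⟨r, hr⟩ : ∃ r : ℕ, q = (r : ℤ) := ⟨q.toNat, by omega⟩
    have hr0 : 0 < r := by omega
    refine RingL.natCase h1 h5 h6 T r hr0 hT fun y => ?_
    obtain ⟨i, j, hij⟩ := h y
    refine ⟨i, j, ?_⟩
    rw [hr, zpow_natCast, Units.val_pow_eq_pow_val] at hij
    exact hij

end Pool.Agent.Work.MP_302c96_al.Mal

-- ===== Main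
namespace Pool.Agent.Work.MP_302c96_al.Mal

universe u

open scoped commutatorElement

namespace MainAux

variable {G : Type u} [Group G]

/-- abelian case -/
lemma abelian_le (hN : StNorm.{u}) (hM : StMod.{u}) (hR : StRing) (a x : G) (hcov : Cov a x)
    (hinf : Inf a) (hmal : Maln a) (hx : ¬ ∃ k : ℤ, x = a ^ k) (M : Subgroup G)
    (hab : ∀ m ∈ M, ∀ n ∈ M, m * n = n * m) (hc1 : ∀ m ∈ M, a * m * a⁻¹ ∈ M)
    (hc2 : ∀ m ∈ M, a⁻¹ * m * a ∈ M) : ∀ m ∈ M, ∃ k : ℤ, m = a ^ k := by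
  by_contra hne
  push Not at hne
  obtain ⟨m0, hm0, hm0'⟩ := hne
  have hm0'' : ¬ ∃ k : ℤ, m0 = a ^ k := fun ⟨k, hk⟩ => hm0' k hk
  obtain ⟨c, hc, q, hq, hfix, hcv⟩ := hN a x hcov hinf hmal hx M hab hc1 hc2 ⟨m0, hm0, hm0''⟩
  have hconj : ∀ k : ℤ, ∀ m ∈ M, a ^ k * m * a ^ (-k) ∈ M := by
    intro k
    induction k using Int.induction_on with
    | zero => intro m hm; simpa using hm
    | succ n ih =>
      intro m hm
      have h := hc1 _ (ih m hm)
      have e : a * (a ^ (n : ℤ) * m * a ^ (-(n : ℤ))) * a⁻¹ =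
          a ^ ((n : ℤ) + 1) * m * a ^ (-((n : ℤ) + 1)) := by
        rw [show (n : ℤ) + 1 = 1 + n by ring, zpow_add, neg_add, show (-1 : ℤ) + -(n:ℤ) = -(n:ℤ) + -1 by ring,
          zpow_add]
        simp [mul_assoc]
      rwa [e] at h
    | pred n ih =>
      intro m hm
      have h := hc2 _ (ih m hm)
      have e : a⁻¹ * (a ^ (-(n : ℤ)) * m * a ^ (-(-(n : ℤ)))) * a =
          a ^ (-(n : ℤ) - 1) * m * a ^ (-(-(n : ℤ) - 1)) := by
        rw [show -(n : ℤ) - 1 = -1 + -n by ring, zpow_add, show -(-1 + -(n : ℤ)) = n + 1 by ring,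
          zpow_add]
        simp [mul_assoc]
      rwa [e] at h
  let _ : CommGroup M := { (inferInstance : Group M) with
    mul_comm := fun m n => Subtype.ext (hab m.1 m.2 n.1 n.2) }
  let T : ℤ → M →* M := fun k =>
    { toFun := fun m => ⟨a ^ k * m.1 * a ^ (-k), hconj k m.1 m.2⟩
      map_one' := by
        apply Subtype.ext
        simp
      map_mul' := by
        intro m n
        apply Subtype.ext
        simp [mul_assoc] }
  let t : ℤ → Additive M →+ Additive M := fun k => MonoidHom.toAdditive (T k)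
  have ht : ∀ (k : ℤ) (m : M), t k (Additive.ofMul m) = Additive.ofMul (T k m) := fun k m => rfl
  obtain ⟨D, _, _, U, hU, hD⟩ := hM (M := Additive M) t (Additive.ofMul (⟨c, hc⟩ : M)) q hq
    (by
      intro m
      induction m using Additive.rec with
      | ofMul m =>
        rw [ht]
        apply congrArg
        apply Subtype.ext
        show a ^ (0 : ℤ) * m.1 * a ^ (-(0 : ℤ)) = m.1
        simp)
    (by
      intro i j m
      induction m using Additive.rec with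
      | ofMul m =>
        rw [ht, ht, ht]
        apply congrArg
        apply Subtype.ext
        show a ^ (i + j) * m.1 * a ^ (-(i + j)) = a ^ i * (a ^ j * m.1 * a ^ (-j)) * a ^ (-i)
        rw [zpow_add, neg_add_rev, zpow_add]
        simp only [mul_assoc])
    (by
      intro k hk m
      induction m using Additive.rec with
      | ofMul m =>
        intro h
        rw [ht] at h
        have h1 : T k m = m := Additive.ofMul.injective h
        have h2 : a ^ k * m.1 * a ^ (-k) = m.1 := congrArg Subtype.val h1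
        have h3 := hfix m.1 m.2 k hk h2
        have h4 : m = 1 := Subtype.ext h3
        rw [h4]
        rfl)
    (by
      intro m
      induction m using Additive.rec with
      | ofMul m =>
        obtain ⟨i, s, h⟩ := hcv m.1 m.2
        refine ⟨i, s, ?_⟩
        rw [ht, ht, ← ofMul_div, ← ofMul_div, ht]
        apply congrArg
        apply Subtype.ext
        show (a ^ q * m.1 * a ^ (-q)) / m.1 = a ^ i * ((a ^ (q * s) * c * a ^ (-(q * s))) / c) * a ^ (-i)
        rw [div_eq_mul_inv, div_eq_mul_inv]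
        exact h)
    ⟨Additive.ofMul ⟨m0, hm0⟩, by
      intro h
      have h1 : (⟨m0, hm0⟩ : M) = 1 := Additive.ofMul.injective h
      have h2 : m0 = 1 := congrArg Subtype.val h1
      exact hm0'' ⟨0, by rw [h2, zpow_zero]⟩⟩
  exact hR U q hq hU hD

/-- iterated commutators inside `G` -/
def E : ℕ → Subgroup G → Subgroup G
  | 0, S => S
  | n + 1, S => ⁅E n S, E n S⁆

lemma E_succ' (n : ℕ) (S : Subgroup G) : E (n + 1) S = E n ⁅S, S⁆ := by
  induction n with
  | zero => rfl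
  | succ n ih =>
    show ⁅E (n + 1) S, E (n + 1) S⁆ = ⁅E n ⁅S, S⁆, E n ⁅S, S⁆⁆
    rw [ih]

lemma E_map (n : ℕ) (S : Subgroup G) : E n S = (derivedSeries S n).map S.subtype := by
  induction n with
  | zero =>
    show S = _
    rw [derivedSeries_zero, ← MonoidHom.range_eq_map, Subgroup.range_subtype]
  | succ n ih =>
    show ⁅E n S, E n S⁆ = _
    rw [derivedSeries_succ, Subgroup.map_commutator, ih]

lemma step (hN : StNorm.{u}) (hM : StMod.{u}) (hR : StRing) (a x : G) (hcov : Cov a x)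
    (hinf : Inf a) (hmal : Maln a) (hx : ¬ ∃ k : ℤ, x = a ^ k) (n : ℕ) :
    ∀ S : Subgroup G, (∀ m ∈ S, a * m * a⁻¹ ∈ S) → (∀ m ∈ S, a⁻¹ * m * a ∈ S) → E n S = ⊥ →
      ∀ m ∈ S, ∃ k : ℤ, m = a ^ k := by
  induction n with
  | zero =>
    intro S _ _ h m hm
    rw [show S = ⊥ from h, Subgroup.mem_bot] at hm
    exact ⟨0, by rw [hm, zpow_zero]⟩
  | succ n ih =>
    intro S h1 h2 hE
    rw [E_succ'] at hE
    have hn1 : ∀ m ∈ ⁅S, S⁆, a * m * a⁻¹ ∈ ⁅S, S⁆ := by
      intro m hm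
      have hle : (⁅S, S⁆ : Subgroup G) ≤ (⁅S, S⁆ : Subgroup G).comap (MulAut.conj a).toMonoidHom := by
        rw [Subgroup.commutator_le]
        intro u hu v hv
        rw [Subgroup.mem_comap, map_commutatorElement]
        exact Subgroup.commutator_mem_commutator (by simpa using h1 u hu) (by simpa using h1 v hv)
      have := hle hm
      simpa using this
    have hn2 : ∀ m ∈ ⁅S, S⁆, a⁻¹ * m * a ∈ ⁅S, S⁆ := by
      intro m hm
      have hle : (⁅S, S⁆ : Subgroup G) ≤ (⁅S, S⁆ : Subgroup G).comap (MulAut.conj a⁻¹).toMonoidHom := by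
        rw [Subgroup.commutator_le]
        intro u hu v hv
        rw [Subgroup.mem_comap, map_commutatorElement]
        exact Subgroup.commutator_mem_commutator (by simpa using h2 u hu) (by simpa using h2 v hv)
      have := hle hm
      simpa using this
    have hle := ih ⁅S, S⁆ hn1 hn2 hE
    by_cases hb : (⁅S, S⁆ : Subgroup G) = ⊥
    · refine abelian_le hN hM hR a x hcov hinf hmal hx S ?_ h1 h2
      intro m hm n hn
      have h3 : ⁅m, n⁆ ∈ (⁅S, S⁆ : Subgroup G) := Subgroup.commutator_mem_commutator hm hn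
      rw [hb, Subgroup.mem_bot, commutatorElement_eq_one_iff_mul_comm] at h3
      exact h3
    · have hex : ∃ w ∈ (⁅S, S⁆ : Subgroup G), w ≠ 1 := by
        by_contra h
        push Not at h
        exact hb ((Subgroup.eq_bot_iff_forall _).2 h)
      obtain ⟨w, hw, hw1⟩ := hex
      obtain ⟨k, hk⟩ := hle w hw
      have hk0 : k ≠ 0 := by
        rintro rfl
        exact hw1 (by rw [hk, zpow_zero])
      intro s hs
      have hs2 : s * w * s⁻¹ ∈ (⁅S, S⁆ : Subgroup G) := by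
        have h3 : ⁅s, w⁆ ∈ (⁅S, S⁆ : Subgroup G) :=
          Subgroup.commutator_mem_commutator hs (Subgroup.commutator_le_self S hw)
        have h4 := (⁅S, S⁆ : Subgroup G).mul_mem h3 hw
        rwa [commutatorElement_def, inv_mul_cancel_right] at h4
      obtain ⟨k', hk'⟩ := hle _ hs2
      rw [hk] at hk'
      exact hmal s k k' hk0 hk'

end MainAux

/-- soluble subgroups normalised by `a` lie in `⟨a⟩`. -/
theorem I_Main (hN : StNorm.{u}) (hM : StMod.{u}) (hR : StRing) {G : Type u} [Group G] (a x : G)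
    (hcov : Cov a x) (hinf : Inf a) (hmal : Maln a) (S : Subgroup G) (hS : Group.IsSolvable S)
    (h1 : ∀ m ∈ S, a * m * a⁻¹ ∈ S) (h2 : ∀ m ∈ S, a⁻¹ * m * a ∈ S) :
    ∀ m ∈ S, ∃ k : ℤ, m = a ^ k := by
  by_cases hx : ∃ k : ℤ, x = a ^ k
  · intro m _
    obtain ⟨k, hk⟩ := hx
    obtain ⟨i, j, l, h⟩ := hcov m
    refine ⟨i + j + l, ?_⟩
    rw [h, hk, zpow_add, zpow_add]
    have : a ^ k * a ^ j * (a ^ k)⁻¹ = a ^ j := by
      rw [← zpow_add, add_comm, zpow_add, mul_inv_cancel_right]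
    rw [this]
  · obtain ⟨n, hn⟩ := hS.solvable
    refine MainAux.step hN hM hR a x hcov hinf hmal hx n S h1 h2 ?_
    rw [MainAux.E_map, hn, Subgroup.map_bot]

end Pool.Agent.Work.MP_302c96_al.Mal
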