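import Mathlib

/-! Statements of the items of project Mal (MP_302c96_al): G = ABA with A infinite cyclic malnormal.
Every item is a theorem with the name and the signature below, in its own file. -/

set_option autoImplicit false

namespace Pool.Agent.Work.MP_302c96_al.Mal

universe u

/-- `G = A (x A x⁻¹) A` with `A = ⟨a⟩`. -/
def Cov {G : Type u} [Group G] (a x : G) : Prop :=
  ∀ g : G, ∃ i j k : ℤ, g = a ^ i * (x * a ^ j * x⁻¹) * a ^ k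

/-- `a` has infinite order. -/
def Inf {G : Type u} [Group G] (a : G) : Prop := ∀ n : ℤ, a ^ n = 1 → n = 0

/-- `⟨a⟩` is malnormal. -/
def Maln {G : Type u} [Group G] (a : G) : Prop :=
  ∀ g : G, ∀ n m : ℤ, n ≠ 0 → g * a ^ n * g⁻¹ = a ^ m → ∃ k : ℤ, g = a ^ k

/-- Q1: a common power of `a` and `x a x⁻¹` is central. -/
def StCentral : Prop :=
  ∀ {G : Type u} [Group G] (a x : G), Cov a x → Inf a → ∀ p q : ℤ, p ≠ 0 → q ≠ 0 →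
    x * a ^ p * x⁻¹ = a ^ q → p = q ∧ a ^ p ∈ Subgroup.center G

/-- Q2: if a power of `a` with exponent `p ≠ 0` is central (or trivial), the centre has finite index. -/
def StIndex : Prop :=
  ∀ {G : Type u} [Group G] (a x : G), Cov a x → ∀ p : ℤ, p ≠ 0 → a ^ p ∈ Subgroup.center G →
    (Subgroup.center G).FiniteIndex

/-- Q3: proper quotients. -/
def StQuot : Prop :=
  ∀ {G : Type u} [Group G] (a x : G), Cov a x → Inf a → ∀ (N : Subgroup G) [N.Normal], N ≠ ⊥ →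
    (Subgroup.center (G ⧸ N)).FiniteIndex ∧ Finite (commutator (G ⧸ N))

/-- N: an abelian subgroup normalised by `a` and not inside `⟨a⟩` is a module of the special kind. -/
def StNorm : Prop :=
  ∀ {G : Type u} [Group G] (a x : G), Cov a x → Inf a → Maln a → (¬ ∃ k : ℤ, x = a ^ k) →
    ∀ M : Subgroup G, (∀ m ∈ M, ∀ n ∈ M, m * n = n * m) → (∀ m ∈ M, a * m * a⁻¹ ∈ M) →
      (∀ m ∈ M, a⁻¹ * m * a ∈ M) → (∃ m ∈ M, ¬ ∃ k : ℤ, m = a ^ k) →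
      ∃ c ∈ M, ∃ q : ℤ, q ≠ 0 ∧ (∀ m ∈ M, ∀ k : ℤ, k ≠ 0 → a ^ k * m * a ^ (-k) = m → m = 1) ∧
        ∀ m ∈ M, ∃ i s : ℤ, (a ^ q * m * a ^ (-q)) * m⁻¹ =
          a ^ i * ((a ^ (q * s) * c * a ^ (-(q * s))) * c⁻¹) * a ^ (-i)

/-- M: the module lemma: from the special module to a domain. -/
def StMod : Prop :=
  ∀ {M : Type u} [AddCommGroup M] (t : ℤ → M →+ M) (c : M) (q : ℤ), q ≠ 0 →
    (∀ m : M, t 0 m = m) → (∀ (i j : ℤ) (m : M), t (i + j) m = t i (t j m)) →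
    (∀ k : ℤ, k ≠ 0 → ∀ m : M, t k m = m → m = 0) →
    (∀ m : M, ∃ i s : ℤ, t q m - m = t i (t (q * s) c - c)) →
    (∃ m : M, m ≠ 0) →
    ∃ (D : Type) (_ : CommRing D) (_ : IsDomain D) (T : Dˣ), (∀ k : ℤ, k ≠ 0 → T ^ k ≠ 1) ∧
      ∀ y : D, ∃ i j : ℤ, ((T ^ q : Dˣ) - 1 : D) * y = (T ^ i : Dˣ) - (T ^ j : Dˣ)

/-- R1: characteristic p. -/
def StCharP : Prop :=
  ∀ {D : Type} [CommRing D] [IsDomain D] (p : ℕ) [Fact p.Prime] [CharP D p] (T : Dˣ) (q : ℕ),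
    0 < q → (∀ k : ℤ, k ≠ 0 → T ^ k ≠ 1) → ∀ i j : ℤ,
      ((T : D) ^ q - 1) * (1 + (T : D) ^ (2 * q + 1)) ≠ (T ^ i : Dˣ) - (T ^ j : Dˣ)

/-- R2: bound for the exponents when `T` is not integral. -/
def StNonInt : Prop :=
  ∀ {D : Type} [CommRing D] [IsDomain D] [CharZero D] (T : Dˣ) (q : ℕ), 0 < q →
    (∀ k : ℤ, k ≠ 0 → T ^ k ≠ 1) → ¬ IsIntegral ℤ (T : D) → ∀ n : ℕ, 0 < n → ∀ i j : ℤ,
      ((T : D) ^ q - 1) * (n : D) = (T ^ i : Dˣ) - (T ^ j : Dˣ) → i ≤ q ∧ j ≤ q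

/-- R3: Kronecker. -/
def StKron : Prop :=
  ∀ {D : Type} [CommRing D] [IsDomain D] [CharZero D] (T : Dˣ),
    (∀ k : ℤ, k ≠ 0 → T ^ k ≠ 1) → IsIntegral ℤ (T : D) →
    ∃ z : ℂ, 1 < ‖z‖ ∧ ∀ f : Polynomial ℤ, Polynomial.aeval (T : D) f = 0 → Polynomial.aeval z f = 0

/-- R4: bound for the exponents from a complex conjugate. -/
def StCBound : Prop :=
  ∀ (z : ℂ), 1 < ‖z‖ → ∀ q : ℕ, 0 < q → ∃ C : ℕ, ∀ n : ℕ, 0 < n → ∀ i j : ℤ,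
      (z ^ q - 1) * (n : ℂ) = z ^ i - z ^ j → i ≤ C * (1 + Nat.log 2 n) ∧ j ≤ C * (1 + Nat.log 2 n)

/-- R5: upper bound in all cases. -/
def StUpper : Prop :=
  ∀ {D : Type} [CommRing D] [IsDomain D] [CharZero D] (T : Dˣ) (q : ℕ), 0 < q →
    (∀ k : ℤ, k ≠ 0 → T ^ k ≠ 1) → ∃ C : ℕ, ∀ n : ℕ, 0 < n → ∀ i j : ℤ,
      ((T : D) ^ q - 1) * (n : D) = (T ^ i : Dˣ) - (T ^ j : Dˣ) →
        i ≤ C * (1 + Nat.log 2 n) ∧ j ≤ C * (1 + Nat.log 2 n)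

/-- R6: counting. -/
def StCount : Prop :=
  ∀ (f : ℕ → ℤ × ℤ) (C : ℕ), (∀ m n : ℕ, 0 < m → 0 < n → f m = f n → m = n) →
    ¬ ∀ n : ℕ, 0 < n → |(f n).1| ≤ C * (1 + Nat.log 2 n) ∧ |(f n).2| ≤ C * (1 + Nat.log 2 n)

/-- R7: the ring lemma. -/
def StRing : Prop :=
  ∀ {D : Type} [CommRing D] [IsDomain D] (T : Dˣ) (q : ℤ), q ≠ 0 →
    (∀ k : ℤ, k ≠ 0 → T ^ k ≠ 1) →
    ¬ ∀ y : D, ∃ i j : ℤ, ((T ^ q : Dˣ) - 1 : D) * y = (T ^ i : Dˣ) - (T ^ j : Dˣ)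

end Pool.Agent.Work.MP_302c96_al.Mal
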