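import Mathlib
import Pool.Agent.Work.MP_302c96_al.Mal.Stmts

set_option autoImplicit false

namespace Pool.Agent.Work.MP_302c96_al.Mal

namespace CBound

theorem low (z : ℂ) (hz : 1 < ‖z‖) (i j : ℤ) (hij : j < i) :
    ‖z‖ ^ i * (1 - ‖z‖⁻¹) ≤ ‖z ^ i - z ^ j‖ := by
  have h0 : 0 < ‖z‖ := by linarith
  have h1 : ‖z ^ i‖ - ‖z ^ j‖ ≤ ‖z ^ i - z ^ j‖ := norm_sub_norm_le _ _
  rw [norm_zpow, norm_zpow] at h1
  have h2 : ‖z‖ ^ j ≤ ‖z‖ ^ (i - 1) := zpow_le_zpow_right₀ hz.le (by omega)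
  rw [zpow_sub_one₀ h0.ne'] at h2
  linarith

theorem one (z : ℂ) (hz : 1 < ‖z‖) (q : ℕ) (n : ℕ) (i j : ℤ) (hij : j < i)
    (h : ‖z ^ i - z ^ j‖ ≤ (‖z‖ ^ q + 1) * n) :
    ‖z‖ ^ i ≤ (‖z‖ ^ q + 1) / (1 - ‖z‖⁻¹) * n := by
  have h0 : 0 < ‖z‖ := by linarith
  have h1 : 0 < 1 - ‖z‖⁻¹ := by
    have := inv_lt_one_of_one_lt₀ hz
    linarith
  have h2 := (low z hz i j hij).trans h
  rw [div_mul_eq_mul_div, le_div_iff₀ h1]
  exact h2

theorem fin (r C0 : ℝ) (hr : 1 < r) (hC0 : 0 < C0) (C : ℕ)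
    (hC : (|Real.log C0| + Real.log 2) / Real.log r ≤ C) (n : ℕ) (hn : 0 < n) (i : ℤ)
    (h : r ^ i ≤ C0 * n) : i ≤ C * (1 + Nat.log 2 n) := by
  have hlr : 0 < Real.log r := Real.log_pos hr
  have hn0 : (0 : ℝ) < n := by exact_mod_cast hn
  have h1 : (i : ℝ) * Real.log r ≤ Real.log C0 + Real.log n := by
    have := Real.log_le_log (zpow_pos (by linarith) i) h
    rwa [Real.log_zpow, Real.log_mul hC0.ne' hn0.ne'] at this
  have h2 : Real.log n ≤ (1 + (Nat.log 2 n : ℕ)) * Real.log 2 := by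
    have h3 : n < 2 ^ (Nat.log 2 n + 1) := Nat.lt_pow_succ_log_self (by norm_num) n
    have h4 : (n : ℝ) ≤ 2 ^ (Nat.log 2 n + 1) := by exact_mod_cast h3.le
    have h5 := Real.log_le_log hn0 h4
    rw [Real.log_pow] at h5
    push_cast at h5
    linarith
  have hl2 : 0 < Real.log 2 := Real.log_pos (by norm_num)
  have hL : (0 : ℝ) ≤ (Nat.log 2 n : ℕ) := Nat.cast_nonneg _
  have h6 : (i : ℝ) * Real.log r ≤ (|Real.log C0| + Real.log 2) * (1 + (Nat.log 2 n : ℕ)) := by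
    have h7 := le_abs_self (Real.log C0)
    have h8 := abs_nonneg (Real.log C0)
    nlinarith
  have h9 : |Real.log C0| + Real.log 2 ≤ C * Real.log r := by
    rwa [div_le_iff₀ hlr] at hC
  have h10 : (i : ℝ) * Real.log r ≤ (C * (1 + (Nat.log 2 n : ℕ))) * Real.log r := by
    nlinarith
  have h11 : (i : ℝ) ≤ C * (1 + (Nat.log 2 n : ℕ)) := le_of_mul_le_mul_right h10 hlr
  exact_mod_cast h11

end CBound

open CBound in
theorem I_CBound : StCBound := by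
  intro z hz q hq
  have h0 : 0 < ‖z‖ := by linarith
  have h1 : 0 < 1 - ‖z‖⁻¹ := by
    have := inv_lt_one_of_one_lt₀ hz
    linarith
  obtain ⟨C0, hC0⟩ : ∃ C0 : ℝ, C0 = (‖z‖ ^ q + 1) / (1 - ‖z‖⁻¹) := ⟨_, rfl⟩
  have hC0p : 0 < C0 := by rw [hC0]; positivity
  obtain ⟨C, hC⟩ := exists_nat_ge ((|Real.log C0| + Real.log 2) / Real.log ‖z‖)
  refine ⟨C, ?_⟩
  intro n hn i j h
  have hzq : z ^ q ≠ 1 := by
    intro h2
    have h3 : ‖z‖ ^ q = 1 := by rw [← norm_pow, h2, norm_one]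
    have h4 : 1 < ‖z‖ ^ q := one_lt_pow₀ hz (by omega)
    linarith
  have hne : i ≠ j := by
    rintro rfl
    rw [sub_self] at h
    rcases mul_eq_zero.1 h with h | h
    · exact hzq (sub_eq_zero.1 h)
    · have : n = 0 := by exact_mod_cast h
      omega
  have hb : ‖z ^ i - z ^ j‖ ≤ (‖z‖ ^ q + 1) * n := by
    rw [← h, norm_mul]
    have h5 : ‖(n : ℂ)‖ = n := by simp
    rw [h5]
    refine mul_le_mul_of_nonneg_right ?_ (Nat.cast_nonneg n)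
    calc ‖z ^ q - 1‖ ≤ ‖z ^ q‖ + ‖(1 : ℂ)‖ := norm_sub_le _ _
      _ = ‖z‖ ^ q + 1 := by rw [norm_pow, norm_one]
  have hb' : ‖z ^ j - z ^ i‖ ≤ (‖z‖ ^ q + 1) * n := by rwa [norm_sub_rev]
  rcases lt_or_gt_of_ne hne with hlt | hlt
  · have h6 := one z hz q n j i hlt hb'
    rw [← hC0] at h6
    have h7 := fin ‖z‖ C0 hz hC0p C hC n hn j h6
    exact ⟨by omega, h7⟩
  · have h6 := one z hz q n i j hlt hb
    rw [← hC0] at h6
    have h7 := fin ‖z‖ C0 hz hC0p C hC n hn i h6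
    exact ⟨h7, by omega⟩

end Pool.Agent.Work.MP_302c96_al.Mal
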