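import Pool.Agent.Work.MP_302c96_al.Mal.Stmts

/-! Item Q1 of project Mal: a common power of `a` and `x a x⁻¹` is central. -/

set_option autoImplicit false

namespace Pool.Agent.Work.MP_302c96_al.Mal

universe u

namespace Central

theorem cjz {G : Type u} [Group G] (x a : G) (n : ℤ) :
    x * a ^ n * x⁻¹ = (x * a * x⁻¹) ^ n := by
  exact (_root_.conj_zpow).symm

theorem inf_inj {G : Type u} [Group G] {a : G} (h : Inf a) {m n : ℤ} (e : a ^ m = a ^ n) :
    m = n := by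
  have : a ^ (m - n) = 1 := by rw [zpow_sub, e, mul_inv_cancel]
  have := h _ this
  omega

end Central

theorem I_Central : StCentral.{u} := by
  intro G _ a x hcov hinf p q hp hq hpq
  obtain ⟨b, hb⟩ : ∃ b, b = x * a * x⁻¹ := ⟨_, rfl⟩
  have hbn : ∀ n : ℤ, x * a ^ n * x⁻¹ = b ^ n := fun n => by
    rw [hb]; exact Central.cjz x a n
  have hbp : b ^ p = a ^ q := by rw [← hbn]; exact hpq
  -- `a ^ q` commutes with `b`
  have hcb : Commute b (a ^ q) := by rw [← hbp]; exact (Commute.refl b).zpow_right p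
  obtain ⟨i, j, k, hx⟩ := hcov x
  rw [hbn] at hx
  -- `b = a^i b^j a b^-j a^-i`
  have h1 : a ^ i * (b ^ j * a ^ p * (b ^ j)⁻¹) * (a ^ i)⁻¹ = a ^ q := by
    have h2 : x * a ^ p * x⁻¹ = a ^ i * (b ^ j * a ^ p * (b ^ j)⁻¹) * (a ^ i)⁻¹ := by
      have hk : a ^ k * a ^ p * (a ^ k)⁻¹ = a ^ p := by
        rw [← zpow_add, ← zpow_neg, ← zpow_add]
        congr 1
        ring
      calc x * a ^ p * x⁻¹ = (a ^ i * b ^ j * a ^ k) * a ^ p * (a ^ i * b ^ j * a ^ k)⁻¹ := by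
            rw [← hx]
        _ = a ^ i * (b ^ j * (a ^ k * a ^ p * (a ^ k)⁻¹) * (b ^ j)⁻¹) * (a ^ i)⁻¹ := by
            group
        _ = _ := by rw [hk]
    rw [← h2]; exact hpq
  have h3 : b ^ j * a ^ p * (b ^ j)⁻¹ = a ^ q := by
    have h4 : (a ^ i)⁻¹ * (a ^ i * (b ^ j * a ^ p * (b ^ j)⁻¹) * (a ^ i)⁻¹) * a ^ i =
        (a ^ i)⁻¹ * a ^ q * a ^ i := by rw [h1]
    have h5 : (a ^ i)⁻¹ * a ^ q * a ^ i = a ^ q := by
      rw [← zpow_neg, ← zpow_add, ← zpow_add]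
      congr 1
      ring
    rw [h5] at h4
    rw [← h4]
    group
  have h6 : b ^ j * a ^ q * (b ^ j)⁻¹ = a ^ q := by
    have : Commute (b ^ j) (a ^ q) := hcb.zpow_left j
    rw [this.eq, mul_inv_cancel_right]
  have h7 : (a ^ q) ^ q = (a ^ q) ^ p := by
    calc (a ^ q) ^ q = (b ^ j * a ^ p * (b ^ j)⁻¹) ^ q := by rw [h3]
      _ = b ^ j * (a ^ p) ^ q * (b ^ j)⁻¹ := (Central.cjz _ _ _).symm
      _ = b ^ j * (a ^ q) ^ p * (b ^ j)⁻¹ := by rw [← zpow_mul, ← zpow_mul, mul_comm p q]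
      _ = (b ^ j * a ^ q * (b ^ j)⁻¹) ^ p := Central.cjz _ _ _
      _ = (a ^ q) ^ p := by rw [h6]
  have hqp : p = q := by
    rw [← zpow_mul, ← zpow_mul] at h7
    have := Central.inf_inj hinf h7
    exact (mul_left_cancel₀ hq this).symm
  refine ⟨hqp, ?_⟩
  rw [Subgroup.mem_center_iff]
  intro g
  obtain ⟨i', j', k', hg⟩ := hcov g
  rw [hbn] at hg
  have c1 : Commute (a ^ i') (a ^ p) := (Commute.refl a).zpow_zpow i' p
  have c2 : Commute (b ^ j') (a ^ p) := by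
    rw [hqp]; exact hcb.zpow_left j'
  have c3 : Commute (a ^ k') (a ^ p) := (Commute.refl a).zpow_zpow k' p
  have c4 : Commute g (a ^ p) := by
    rw [hg]; exact (c1.mul_left c2).mul_left c3
  exact c4.eq

end Pool.Agent.Work.MP_302c96_al.Mal
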