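import Mathlib
import Pool.Agent.Work.MP_302c96_al.Mal.Stmts

set_option autoImplicit false

namespace Pool.Agent.Work.MP_302c96_al.Mal

namespace CharPp

open Polynomial

theorem torsion {D : Type} [CommRing D] [IsDomain D] (p : ℕ) [Fact p.Prime] [Algebra (ZMod p) D]
    (T : Dˣ) (h : IsAlgebraic (ZMod p) (T : D)) : ∃ k : ℤ, k ≠ 0 ∧ T ^ k = 1 := by
  have hint : IsIntegral (ZMod p) (T : D) := h.isIntegral
  obtain ⟨S, hS⟩ : ∃ S : Submodule (ZMod p) D,
      S = Subalgebra.toSubmodule (Algebra.adjoin (ZMod p) {(T : D)}) := ⟨_, rfl⟩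
  have hfg : S.FG := by
    rw [hS]
    exact hint.fg_adjoin_singleton
  have hfin : Module.Finite (ZMod p) S := Module.Finite.iff_fg.2 hfg
  have hfin2 : Finite S := Module.finite_of_finite (ZMod p)
  have hmem : ∀ n : ℕ, (T : D) ^ n ∈ S := by
    intro n
    rw [hS]
    exact pow_mem (Algebra.subset_adjoin rfl : (T : D) ∈ Algebra.adjoin (ZMod p) {(T : D)}) n
  have hni := not_injective_infinite_finite (fun n : ℕ => (⟨(T : D) ^ n, hmem n⟩ : S))
  rw [Function.Injective] at hni
  push Not at hni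
  obtain ⟨m, n, he, hmn⟩ := hni
  have he2 : (T : D) ^ m = (T : D) ^ n := congrArg Subtype.val he
  have he3 : T ^ m = T ^ n := by
    apply Units.ext
    rw [Units.val_pow_eq_pow_val, Units.val_pow_eq_pow_val, he2]
  refine ⟨(m : ℤ) - n, by omega, ?_⟩
  rw [zpow_sub, zpow_natCast, zpow_natCast, he3, mul_inv_cancel]

end CharPp

open CharPp Polynomial in
theorem I_CharP : StCharP := by
  intro D _ _ p _ _ T q hq hT i j h
  letI : Algebra (ZMod p) D := ZMod.algebra D p
  obtain ⟨N, hN⟩ : ∃ N : ℕ, N = i.natAbs + j.natAbs := ⟨_, rfl⟩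
  obtain ⟨a, ha⟩ : ∃ a : ℕ, (a : ℤ) = i + N := ⟨(i + N).toNat, by omega⟩
  obtain ⟨b, hb⟩ : ∃ b : ℕ, (b : ℤ) = j + N := ⟨(j + N).toNat, by omega⟩
  have hkey : (T : D) ^ (3 * q + 1 + N) - (T : D) ^ (2 * q + 1 + N) + (T : D) ^ (q + N)
      - (T : D) ^ N - (T : D) ^ a + (T : D) ^ b = 0 := by
    have h1 : ((T ^ i : Dˣ) : D) * (T : D) ^ N = (T : D) ^ a := by
      rw [← Units.val_pow_eq_pow_val, ← Units.val_pow_eq_pow_val, ← Units.val_mul,
        ← zpow_natCast T N, ← zpow_add, ← ha, zpow_natCast]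
    have h2 : ((T ^ j : Dˣ) : D) * (T : D) ^ N = (T : D) ^ b := by
      rw [← Units.val_pow_eq_pow_val, ← Units.val_pow_eq_pow_val, ← Units.val_mul,
        ← zpow_natCast T N, ← zpow_add, ← hb, zpow_natCast]
    have h3 := congrArg (fun y => y * (T : D) ^ N) h
    simp only [sub_mul, h1, h2] at h3
    have h4 : (T : D) ^ (3 * q + 1 + N) - (T : D) ^ (2 * q + 1 + N) + (T : D) ^ (q + N)
      - (T : D) ^ N = (T : D) ^ q * (1 + (T : D) ^ (2 * q + 1)) * (T : D) ^ N -
        1 * (1 + (T : D) ^ (2 * q + 1)) * (T : D) ^ N := by ring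
    rw [h4, h3]
    ring
  obtain ⟨F, hF⟩ : ∃ F : (ZMod p)[X], F = X ^ (3 * q + 1 + N) - X ^ (2 * q + 1 + N) +
      X ^ (q + N) - X ^ N - X ^ a + X ^ b := ⟨_, rfl⟩
  have hF0 : F ≠ 0 := by
    intro h0
    have hc : ∀ e : ℕ, (if e = 3 * q + 1 + N then (1 : ZMod p) else 0) -
        (if e = 2 * q + 1 + N then 1 else 0) + (if e = q + N then 1 else 0) -
        (if e = N then 1 else 0) - (if e = a then 1 else 0) + (if e = b then 1 else 0) = 0 := by
      intro e
      have := congrArg (fun G => coeff G e) (hF.symm.trans h0)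
      simpa only [coeff_add, coeff_sub, coeff_X_pow, coeff_zero] using this
    have hone : (1 : ZMod p) ≠ 0 := one_ne_zero
    have e1 : 3 * q + 1 + N = a ∨ 3 * q + 1 + N = b := by
      by_contra hcon
      push Not at hcon
      have h1 := hc (3 * q + 1 + N)
      rw [if_pos rfl, if_neg (by omega), if_neg (by omega), if_neg (by omega), if_neg hcon.1,
        if_neg hcon.2] at h1
      simp at h1
    have e2 : 2 * q + 1 + N = a ∨ 2 * q + 1 + N = b := by
      by_contra hcon
      push Not at hcon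
      have h1 := hc (2 * q + 1 + N)
      rw [if_neg (by omega), if_pos rfl, if_neg (by omega), if_neg (by omega), if_neg hcon.1,
        if_neg hcon.2] at h1
      simp at h1
    have e3 : q + N = a ∨ q + N = b := by
      by_contra hcon
      push Not at hcon
      have h1 := hc (q + N)
      rw [if_neg (by omega), if_neg (by omega), if_pos rfl, if_neg (by omega), if_neg hcon.1,
        if_neg hcon.2] at h1
      simp at h1
    omega
  have halg : IsAlgebraic (ZMod p) (T : D) := by
    refine ⟨F, hF0, ?_⟩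
    rw [hF]
    simp only [map_add, map_sub, map_pow, aeval_X]
    exact hkey
  obtain ⟨k, hk, hk2⟩ := torsion p T halg
  exact hT k hk hk2

end Pool.Agent.Work.MP_302c96_al.Mal
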