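import Mathlib
import Pool.Agent.Work.MP_302c96_al.Mal.Stmts

set_option autoImplicit false

namespace Pool.Agent.Work.MP_302c96_al.Mal

namespace Count

theorem big (K : ℕ) : ∃ s : ℕ, (K * (1 + s)) ^ 2 < 2 ^ s := by
  have h := tendsto_pow_const_div_const_pow_of_one_lt 2 (r := (2 : ℝ)) (by norm_num)
  have hpos : (0 : ℝ) < 1 / (2 * (K : ℝ) ^ 2 + 1) := by positivity
  obtain ⟨n, hn1, hn2⟩ := ((h.eventually (gt_mem_nhds hpos)).and
    (Filter.eventually_ge_atTop 1)).exists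
  refine ⟨n - 1, ?_⟩
  have h2 : (0 : ℝ) < 2 ^ n := by positivity
  rw [div_lt_div_iff₀ h2 (by positivity)] at hn1
  have h3 : (n : ℝ) ^ 2 * (2 * (K : ℝ) ^ 2) < 2 ^ n := by nlinarith [sq_nonneg (n : ℝ)]
  have h4 : n ^ 2 * (2 * K ^ 2) < 2 ^ n := by exact_mod_cast h3
  obtain ⟨m, rfl⟩ : ∃ m, n = m + 1 := ⟨n - 1, by omega⟩
  rw [pow_succ 2 m] at h4
  have h5 : m + 1 - 1 = m := by omega
  rw [h5]
  have h6 : (K * (1 + m)) ^ 2 = (m + 1) ^ 2 * K ^ 2 := by ring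
  rw [h6]
  have h7 : (m + 1) ^ 2 * (2 * K ^ 2) = 2 * ((m + 1) ^ 2 * K ^ 2) := by ring
  omega

end Count

open Pool.Agent.Work.MP_302c96_al.Mal.Count in
theorem I_Count : StCount := by
  intro f C hinj hall
  obtain ⟨s, hs⟩ := big (2 * C + 1)
  obtain ⟨B, hB⟩ : ∃ B : ℕ, B = C * (1 + s) := ⟨_, rfl⟩
  have hmaps : ∀ n ∈ Finset.Icc 1 (2 ^ s), f n ∈
      (Finset.Icc (-(B : ℤ)) B) ×ˢ (Finset.Icc (-(B : ℤ)) B) := by
    intro n hn
    rw [Finset.mem_Icc] at hn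
    obtain ⟨h1, h2⟩ := hall n (by omega)
    have h3 : Nat.log 2 n ≤ s := by
      have := Nat.log_mono_right (b := 2) hn.2
      rwa [Nat.log_pow (by norm_num)] at this
    have h4 : (C : ℤ) * (1 + (Nat.log 2 n : ℕ)) ≤ B := by
      rw [hB]
      push_cast
      have : ((Nat.log 2 n : ℕ) : ℤ) ≤ s := by exact_mod_cast h3
      have hC : (0 : ℤ) ≤ C := Int.natCast_nonneg C
      nlinarith
    rw [Finset.mem_product, Finset.mem_Icc, Finset.mem_Icc]
    have h5 := abs_le.1 (h1.trans h4)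
    have h6 := abs_le.1 (h2.trans h4)
    exact ⟨h5, h6⟩
  have hcard := Finset.card_le_card_of_injOn f hmaps (by
    intro m hm n hn h
    rw [Finset.coe_Icc, Set.mem_Icc] at hm hn
    exact hinj m n (by omega) (by omega) h)
  rw [Finset.card_product, Int.card_Icc, Nat.card_Icc] at hcard
  have h8 : ((B : ℤ) + 1 - -(B : ℤ)).toNat = 2 * B + 1 := by omega
  rw [h8] at hcard
  have h9 : 2 * B + 1 ≤ (2 * C + 1) * (1 + s) := by
    rw [hB]
    nlinarith [Nat.zero_le s]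
  have h10 : (2 * B + 1) * (2 * B + 1) ≤ ((2 * C + 1) * (1 + s)) ^ 2 := by
    rw [sq]
    exact Nat.mul_le_mul h9 h9
  omega

end Pool.Agent.Work.MP_302c96_al.Mal
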