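import Mathlib
import Pool.Agent.Work.MP_302c96_al.Mal.Stmts

set_option autoImplicit false

/-!
# Project Mal (MP_302c96): if a power of `a` is central, the centre has finite index
-/

namespace Pool.Agent.Work.MP_302c96_al.Mal

universe u

namespace Index

theorem finite_quot {G : Type u} [Group G] (a x : G) (h : Cov a x) (p : ℤ) (hp : p ≠ 0)
    (hc : a ^ p ∈ Subgroup.center G) : Finite (G ⧸ Subgroup.center G) := by
  set π : G →* G ⧸ Subgroup.center G := QuotientGroup.mk' (Subgroup.center G) with hπ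
  have h1 : π a ^ p = 1 := by
    rw [← map_zpow]
    exact (QuotientGroup.eq_one_iff _).2 hc
  have h2 : IsOfFinOrder (π a) := isOfFinOrder_iff_zpow_eq_one.2 ⟨p, hp, h1⟩
  have h3 : Finite (Subgroup.zpowers (π a)) := by
    have := h2.finite_zpowers
    exact this
  let f : Subgroup.zpowers (π a) × Subgroup.zpowers (π a) × Subgroup.zpowers (π a) →
      G ⧸ Subgroup.center G := fun u => u.1.1 * (π x * u.2.1.1 * (π x)⁻¹) * u.2.2.1
  have hf : Function.Surjective f := by
    intro y
    obtain ⟨g, rfl⟩ := QuotientGroup.mk'_surjective (Subgroup.center G) y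
    obtain ⟨i, j, k, hg⟩ := h g
    refine ⟨⟨⟨π a ^ i, i, rfl⟩, ⟨π a ^ j, j, rfl⟩, ⟨π a ^ k, k, rfl⟩⟩, ?_⟩
    change π a ^ i * (π x * π a ^ j * (π x)⁻¹) * π a ^ k = π g
    rw [hg]
    simp only [map_mul, map_zpow, map_inv]
  exact Finite.of_surjective f hf

end Index

theorem I_Index : StIndex.{u} := by
  intro G _ a x h p hp hc
  have := Index.finite_quot a x h p hp hc
  exact Subgroup.finiteIndex_of_finite_quotient

end Pool.Agent.Work.MP_302c96_al.Mal
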