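import Mathlib
import Pool.Agent.Work.MP_302c96_al.Mal.Stmts

/-! Item R3 (Kronecker) of project Mal (helper17). -/

set_option autoImplicit false

namespace Pool.Agent.Work.MP_302c96_al.Mal

open Polynomial

namespace Kron

theorem field {F : Type} [Field F] [CharZero F] (t : F) (ht : IsIntegral ℤ t) (ht0 : t ≠ 0)
    (hr : ∀ n : ℕ, 0 < n → t ^ n ≠ 1) :
    ∃ z : ℂ, 1 < ‖z‖ ∧ ∀ f : Polynomial ℤ, eval₂ (Int.castRingHom F) t f = 0 →
      Polynomial.aeval z f = 0 := by
  have htQ : IsIntegral ℚ t := ht.tower_top
  let K := IntermediateField.adjoin ℚ {t}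
  have hfd : FiniteDimensional ℚ K := IntermediateField.adjoin.finiteDimensional htQ
  have hK : NumberField K := { }
  let y : K := IntermediateField.AdjoinSimple.gen ℚ t
  have hy : algebraMap K F y = t := IntermediateField.AdjoinSimple.algebraMap_gen ℚ t
  have hKinj : Function.Injective (algebraMap K F) := (algebraMap K F).injective
  have hyint : IsIntegral ℤ y := by
    have h1 : IsIntegral ℤ ((algebraMap K F).toIntAlgHom y) := by
      change IsIntegral ℤ (algebraMap K F y)
      rw [hy]
      exact ht
    exact (isIntegral_algHom_iff (algebraMap K F).toIntAlgHom hKinj).1 h1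
  have hy0 : y ≠ 0 := by
    intro h
    rw [h, map_zero] at hy
    exact ht0 hy.symm
  have hex : ∃ φ : K →+* ℂ, 1 < ‖φ y‖ := by
    by_contra hcon
    push Not at hcon
    obtain ⟨n, hn, h1⟩ := NumberField.Embeddings.pow_eq_one_of_norm_le_one K ℂ hy0 hyint hcon
    exact hr n hn (by rw [← hy, ← map_pow, h1, map_one])
  obtain ⟨φ, hφ⟩ := hex
  refine ⟨φ y, hφ, ?_⟩
  intro f hf
  have h2 : eval₂ (Int.castRingHom K) y f = 0 := by
    apply hKinj
    rw [map_zero, Polynomial.hom_eval₂, hy]
    have : (algebraMap K F).comp (Int.castRingHom K) = Int.castRingHom F := RingHom.ext_int _ _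
    rw [this]
    exact hf
  have h3 : φ (eval₂ (Int.castRingHom K) y f) = aeval (φ y) f := by
    rw [Polynomial.hom_eval₂, Polynomial.aeval_def]
    congr 1
    exact RingHom.ext_int _ _
  rw [← h3, h2, map_zero]

end Kron

theorem I_Kron : StKron := by
  intro D _ _ _ T hT hint
  have hinj : Function.Injective (algebraMap D (FractionRing D)) :=
    IsFractionRing.injective D (FractionRing D)
  have hF : CharZero (FractionRing D) := charZero_of_injective_algebraMap hinj
  obtain ⟨z, hz, hz2⟩ := Kron.field (F := FractionRing D) (algebraMap D (FractionRing D) (T : D))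
    (by
      obtain ⟨p, hp, hp2⟩ := hint
      refine ⟨p, hp, ?_⟩
      have h1 := congrArg (algebraMap D (FractionRing D)) hp2
      rw [Polynomial.hom_eval₂, map_zero] at h1
      have h2 : (algebraMap D (FractionRing D)).comp (algebraMap ℤ D) =
          @algebraMap ℤ (FractionRing D) _ _ (Ring.toIntAlgebra _) := RingHom.ext_int _ _
      rw [h2] at h1
      exact h1)
    (by
      intro h
      have h1 : (T : D) = 0 := hinj (by rw [map_zero]; exact h)
      exact T.ne_zero h1)
    (by
      intro n hn h2
      have h3 : (T : D) ^ n = 1 := by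
        apply hinj
        rw [map_pow, map_one]
        exact h2
      have h4 : T ^ (n : ℤ) = 1 := by
        rw [zpow_natCast]
        ext
        push_cast
        exact h3
      exact hT n (by exact_mod_cast hn.ne') h4)
  refine ⟨z, hz, fun f hf => hz2 f ?_⟩
  have h1 := congrArg (algebraMap D (FractionRing D)) hf
  rw [Polynomial.aeval_def, Polynomial.hom_eval₂, map_zero] at h1
  have h2 : (algebraMap D (FractionRing D)).comp (algebraMap ℤ D) =
      Int.castRingHom (FractionRing D) := RingHom.ext_int _ _
  rw [h2] at h1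
  exact h1

end Pool.Agent.Work.MP_302c96_al.Mal
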