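import Pool.Agent.Work.MP_302c96_al.Mal.Stmts
import Pool.Agent.Work.MP_302c96_al.Solv

set_option autoImplicit false

namespace Pool.Agent.Work.MP_302c96_al.Mal

universe u

open scoped commutatorElement

namespace MainAux

variable {G : Type u} [Group G]

/-- abelian case -/
lemma abelian_le (hN : StNorm.{u}) (hM : StMod.{u}) (hR : StRing) (a x : G) (hcov : Cov a x)
    (hinf : Inf a) (hmal : Maln a) (hx : ¬ ∃ k : ℤ, x = a ^ k) (M : Subgroup G)
    (hab : ∀ m ∈ M, ∀ n ∈ M, m * n = n * m) (hc1 : ∀ m ∈ M, a * m * a⁻¹ ∈ M)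
    (hc2 : ∀ m ∈ M, a⁻¹ * m * a ∈ M) : ∀ m ∈ M, ∃ k : ℤ, m = a ^ k := by
  by_contra hne
  push Not at hne
  obtain ⟨m0, hm0, hm0'⟩ := hne
  have hm0'' : ¬ ∃ k : ℤ, m0 = a ^ k := fun ⟨k, hk⟩ => hm0' k hk
  obtain ⟨c, hc, q, hq, hfix, hcv⟩ := hN a x hcov hinf hmal hx M hab hc1 hc2 ⟨m0, hm0, hm0''⟩
  have hconj : ∀ k : ℤ, ∀ m ∈ M, a ^ k * m * a ^ (-k) ∈ M := by
    intro k
    induction k using Int.induction_on with
    | zero => intro m hm; simpa using hm
    | succ n ih =>
      intro m hm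
      have h := hc1 _ (ih m hm)
      have e : a * (a ^ (n : ℤ) * m * a ^ (-(n : ℤ))) * a⁻¹ =
          a ^ ((n : ℤ) + 1) * m * a ^ (-((n : ℤ) + 1)) := by
        rw [show (n : ℤ) + 1 = 1 + n by ring, zpow_add, neg_add, show (-1 : ℤ) + -(n:ℤ) = -(n:ℤ) + -1 by ring,
          zpow_add]
        simp [mul_assoc]
      rwa [e] at h
    | pred n ih =>
      intro m hm
      have h := hc2 _ (ih m hm)
      have e : a⁻¹ * (a ^ (-(n : ℤ)) * m * a ^ (-(-(n : ℤ)))) * a =
          a ^ (-(n : ℤ) - 1) * m * a ^ (-(-(n : ℤ) - 1)) := by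
        rw [show -(n : ℤ) - 1 = -1 + -n by ring, zpow_add, show -(-1 + -(n : ℤ)) = n + 1 by ring,
          zpow_add]
        simp [mul_assoc]
      rwa [e] at h
  let _ : CommGroup M := { (inferInstance : Group M) with
    mul_comm := fun m n => Subtype.ext (hab m.1 m.2 n.1 n.2) }
  let T : ℤ → M →* M := fun k =>
    { toFun := fun m => ⟨a ^ k * m.1 * a ^ (-k), hconj k m.1 m.2⟩
      map_one' := by
        apply Subtype.ext
        simp
      map_mul' := by
        intro m n
        apply Subtype.ext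
        simp [mul_assoc] }
  let t : ℤ → Additive M →+ Additive M := fun k => MonoidHom.toAdditive (T k)
  have ht : ∀ (k : ℤ) (m : M), t k (Additive.ofMul m) = Additive.ofMul (T k m) := fun k m => rfl
  obtain ⟨D, _, _, U, hU, hD⟩ := hM (M := Additive M) t (Additive.ofMul (⟨c, hc⟩ : M)) q hq
    (by
      intro m
      induction m using Additive.rec with
      | ofMul m =>
        rw [ht]
        apply congrArg
        apply Subtype.ext
        show a ^ (0 : ℤ) * m.1 * a ^ (-(0 : ℤ)) = m.1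
        simp)
    (by
      intro i j m
      induction m using Additive.rec with
      | ofMul m =>
        rw [ht, ht, ht]
        apply congrArg
        apply Subtype.ext
        show a ^ (i + j) * m.1 * a ^ (-(i + j)) = a ^ i * (a ^ j * m.1 * a ^ (-j)) * a ^ (-i)
        rw [zpow_add, neg_add_rev, zpow_add]
        simp only [mul_assoc])
    (by
      intro k hk m
      induction m using Additive.rec with
      | ofMul m =>
        intro h
        rw [ht] at h
        have h1 : T k m = m := Additive.ofMul.injective h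
        have h2 : a ^ k * m.1 * a ^ (-k) = m.1 := congrArg Subtype.val h1
        have h3 := hfix m.1 m.2 k hk h2
        have h4 : m = 1 := Subtype.ext h3
        rw [h4]
        rfl)
    (by
      intro m
      induction m using Additive.rec with
      | ofMul m =>
        obtain ⟨i, s, h⟩ := hcv m.1 m.2
        refine ⟨i, s, ?_⟩
        rw [ht, ht, ← ofMul_div, ← ofMul_div, ht]
        apply congrArg
        apply Subtype.ext
        show (a ^ q * m.1 * a ^ (-q)) / m.1 = a ^ i * ((a ^ (q * s) * c * a ^ (-(q * s))) / c) * a ^ (-i)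
        rw [div_eq_mul_inv, div_eq_mul_inv]
        exact h)
    ⟨Additive.ofMul ⟨m0, hm0⟩, by
      intro h
      have h1 : (⟨m0, hm0⟩ : M) = 1 := Additive.ofMul.injective h
      have h2 : m0 = 1 := congrArg Subtype.val h1
      exact hm0'' ⟨0, by rw [h2, zpow_zero]⟩⟩
  exact hR U q hq hU hD

/-- iterated commutators inside `G` -/
def E : ℕ → Subgroup G → Subgroup G
  | 0, S => S
  | n + 1, S => ⁅E n S, E n S⁆

lemma E_succ' (n : ℕ) (S : Subgroup G) : E (n + 1) S = E n ⁅S, S⁆ := by
  induction n with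
  | zero => rfl
  | succ n ih =>
    show ⁅E (n + 1) S, E (n + 1) S⁆ = ⁅E n ⁅S, S⁆, E n ⁅S, S⁆⁆
    rw [ih]

lemma E_map (n : ℕ) (S : Subgroup G) : E n S = (derivedSeries S n).map S.subtype := by
  induction n with
  | zero =>
    show S = _
    rw [derivedSeries_zero, ← MonoidHom.range_eq_map, Subgroup.range_subtype]
  | succ n ih =>
    show ⁅E n S, E n S⁆ = _
    rw [derivedSeries_succ, Subgroup.map_commutator, ih]

lemma step (hN : StNorm.{u}) (hM : StMod.{u}) (hR : StRing) (a x : G) (hcov : Cov a x)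
    (hinf : Inf a) (hmal : Maln a) (hx : ¬ ∃ k : ℤ, x = a ^ k) (n : ℕ) :
    ∀ S : Subgroup G, (∀ m ∈ S, a * m * a⁻¹ ∈ S) → (∀ m ∈ S, a⁻¹ * m * a ∈ S) → E n S = ⊥ →
      ∀ m ∈ S, ∃ k : ℤ, m = a ^ k := by
  induction n with
  | zero =>
    intro S _ _ h m hm
    rw [show S = ⊥ from h, Subgroup.mem_bot] at hm
    exact ⟨0, by rw [hm, zpow_zero]⟩
  | succ n ih =>
    intro S h1 h2 hE
    rw [E_succ'] at hE
    have hn1 : ∀ m ∈ ⁅S, S⁆, a * m * a⁻¹ ∈ ⁅S, S⁆ := by
      intro m hm
      have hle : (⁅S, S⁆ : Subgroup G) ≤ (⁅S, S⁆ : Subgroup G).comap (MulAut.conj a).toMonoidHom := by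
        rw [Subgroup.commutator_le]
        intro u hu v hv
        rw [Subgroup.mem_comap, map_commutatorElement]
        exact Subgroup.commutator_mem_commutator (by simpa using h1 u hu) (by simpa using h1 v hv)
      have := hle hm
      simpa using this
    have hn2 : ∀ m ∈ ⁅S, S⁆, a⁻¹ * m * a ∈ ⁅S, S⁆ := by
      intro m hm
      have hle : (⁅S, S⁆ : Subgroup G) ≤ (⁅S, S⁆ : Subgroup G).comap (MulAut.conj a⁻¹).toMonoidHom := by
        rw [Subgroup.commutator_le]
        intro u hu v hv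
        rw [Subgroup.mem_comap, map_commutatorElement]
        exact Subgroup.commutator_mem_commutator (by simpa using h2 u hu) (by simpa using h2 v hv)
      have := hle hm
      simpa using this
    have hle := ih ⁅S, S⁆ hn1 hn2 hE
    by_cases hb : (⁅S, S⁆ : Subgroup G) = ⊥
    · refine abelian_le hN hM hR a x hcov hinf hmal hx S ?_ h1 h2
      intro m hm n hn
      have h3 : ⁅m, n⁆ ∈ (⁅S, S⁆ : Subgroup G) := Subgroup.commutator_mem_commutator hm hn
      rw [hb, Subgroup.mem_bot, commutatorElement_eq_one_iff_mul_comm] at h3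
      exact h3
    · have hex : ∃ w ∈ (⁅S, S⁆ : Subgroup G), w ≠ 1 := by
        by_contra h
        push Not at h
        exact hb ((Subgroup.eq_bot_iff_forall _).2 h)
      obtain ⟨w, hw, hw1⟩ := hex
      obtain ⟨k, hk⟩ := hle w hw
      have hk0 : k ≠ 0 := by
        rintro rfl
        exact hw1 (by rw [hk, zpow_zero])
      intro s hs
      have hs2 : s * w * s⁻¹ ∈ (⁅S, S⁆ : Subgroup G) := by
        have h3 : ⁅s, w⁆ ∈ (⁅S, S⁆ : Subgroup G) :=
          Subgroup.commutator_mem_commutator hs (Subgroup.commutator_le_self S hw)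
        have h4 := (⁅S, S⁆ : Subgroup G).mul_mem h3 hw
        rwa [commutatorElement_def, inv_mul_cancel_right] at h4
      obtain ⟨k', hk'⟩ := hle _ hs2
      rw [hk] at hk'
      exact hmal s k k' hk0 hk'

end MainAux

/-- soluble subgroups normalised by `a` lie in `⟨a⟩`. -/
theorem I_Main (hN : StNorm.{u}) (hM : StMod.{u}) (hR : StRing) {G : Type u} [Group G] (a x : G)
    (hcov : Cov a x) (hinf : Inf a) (hmal : Maln a) (S : Subgroup G) (hS : Group.IsSolvable S)
    (h1 : ∀ m ∈ S, a * m * a⁻¹ ∈ S) (h2 : ∀ m ∈ S, a⁻¹ * m * a ∈ S) :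
    ∀ m ∈ S, ∃ k : ℤ, m = a ^ k := by
  by_cases hx : ∃ k : ℤ, x = a ^ k
  · intro m _
    obtain ⟨k, hk⟩ := hx
    obtain ⟨i, j, l, h⟩ := hcov m
    refine ⟨i + j + l, ?_⟩
    rw [h, hk, zpow_add, zpow_add]
    have : a ^ k * a ^ j * (a ^ k)⁻¹ = a ^ j := by
      rw [← zpow_add, add_comm, zpow_add, mul_inv_cancel_right]
    rw [this]
  · obtain ⟨n, hn⟩ := hS.solvable
    refine MainAux.step hN hM hR a x hcov hinf hmal hx n S h1 h2 ?_
    rw [MainAux.E_map, hn, Subgroup.map_bot]

end Pool.Agent.Work.MP_302c96_al.Mal
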