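import Mathlib
import Pool.Agent.Work.MP_302c96_al.Mal.Stmts

set_option autoImplicit false

namespace Pool.Agent.Work.MP_302c96_al.Mal

universe u

namespace Modl

open LaurentPolynomial

abbrev R : Type := LaurentPolynomial ℤ

theorem noeth : IsNoetherianRing R :=
  IsLocalization.isNoetherianRing (Submonoid.powers (Polynomial.X : Polynomial ℤ)) R inferInstance

/-- The monoid homomorphism given by `t`. -/
def mon {M : Type u} [AddCommGroup M] (t : ℤ → M →+ M) (h0 : ∀ m : M, t 0 m = m)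
    (hadd : ∀ (i j : ℤ) (m : M), t (i + j) m = t i (t j m)) :
    Multiplicative ℤ →* AddMonoid.End M where
  toFun k := t (Multiplicative.toAdd k)
  map_one' := by
    ext m
    exact h0 m
  map_mul' i j := by
    ext m
    exact hadd _ _ m

/-- The action of Laurent polynomials. -/
noncomputable def phi {M : Type u} [AddCommGroup M] (t : ℤ → M →+ M) (h0 : ∀ m : M, t 0 m = m)
    (hadd : ∀ (i j : ℤ) (m : M), t (i + j) m = t i (t j m)) : R →ₐ[ℤ] AddMonoid.End M :=
  AddMonoidAlgebra.lift ℤ _ _ (mon t h0 hadd)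

theorem phi_T {M : Type u} [AddCommGroup M] (t : ℤ → M →+ M) (h0 : ∀ m : M, t 0 m = m)
    (hadd : ∀ (i j : ℤ) (m : M), t (i + j) m = t i (t j m)) (k : ℤ) (m : M) :
    phi t h0 hadd (T k) m = t k m := by
  unfold phi T
  rw [AddMonoidAlgebra.lift_single]
  rw [one_smul]
  rfl

end Modl

open Modl in
theorem I_Mod : StMod.{u} := by
  intro M _ t c q hq h0 hadd hfree hrel hne
  obtain ⟨φ, hφ⟩ : ∃ φ : R →ₐ[ℤ] AddMonoid.End M, ∀ k m, φ (LaurentPolynomial.T k) m = t k m :=
    ⟨phi t h0 hadd, phi_T t h0 hadd⟩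
  have hmul : ∀ (f g : R) (m : M), φ (f * g) m = φ f (φ g m) := by
    intro f g m
    rw [map_mul]
    rfl
  have hcomm : ∀ (f g : R) (m : M), φ f (φ g m) = φ g (φ f m) := by
    intro f g m
    rw [← hmul, mul_comm, hmul]
  have hc0 : c ≠ 0 := by
    rintro rfl
    obtain ⟨m, hm⟩ := hne
    obtain ⟨i, s, his⟩ := hrel m
    rw [map_zero, sub_zero, map_zero, sub_eq_zero] at his
    exact hm (hfree q hq m his)
  let _ : Module R M := Module.compHom M φ.toRingHom
  have hsmul : ∀ (f : R) (m : M), f • m = φ f m := fun f m => rfl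
  have hno : IsNoetherianRing R := noeth
  obtain ⟨P, hP, hcP⟩ := exists_le_isAssociatedPrime_of_isNoetherianRing R c hc0
  rw [isAssociatedPrime_iff] at hP
  obtain ⟨hPp, x, hx⟩ := hP
  have hmemP : ∀ f : R, f ∈ P ↔ φ f x = 0 := by
    intro f
    rw [hx, Submodule.mem_colon_singleton, Submodule.mem_bot, hsmul]
  have hcP2 : ∀ f : R, φ f c = 0 → f ∈ P := by
    intro f hf
    apply hcP
    rw [Submodule.mem_colon_singleton, Submodule.mem_bot, hsmul]
    exact hf
  have hx0 : x ≠ 0 := by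
    rintro rfl
    apply hPp.ne_top
    rw [Ideal.eq_top_iff_one, hmemP, map_zero]
  have hTT : ∀ k : ℤ, (LaurentPolynomial.T k : R) * LaurentPolynomial.T (-k) = 1 := by
    intro k
    rw [← LaurentPolynomial.T_add, add_neg_cancel, LaurentPolynomial.T_zero]
  obtain ⟨U, hU⟩ : ∃ U : (R ⧸ P)ˣ, ∀ k : ℤ,
      ((U ^ k : (R ⧸ P)ˣ) : R ⧸ P) = Ideal.Quotient.mk P (LaurentPolynomial.T k) := by
    obtain ⟨V, hV⟩ : ∃ V : Rˣ, (V : R) = LaurentPolynomial.T 1 :=
      ⟨⟨LaurentPolynomial.T 1, LaurentPolynomial.T (-1), hTT 1, by rw [mul_comm]; exact hTT 1⟩,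
        rfl⟩
    have hVk : ∀ k : ℤ, ((V ^ k : Rˣ) : R) = LaurentPolynomial.T k := by
      have hn : ∀ n : ℕ, ((V ^ n : Rˣ) : R) = LaurentPolynomial.T n := by
        intro n
        rw [Units.val_pow_eq_pow_val, hV, LaurentPolynomial.T_pow, mul_one]
      intro k
      obtain ⟨n, rfl | rfl⟩ := k.eq_nat_or_neg
      · rw [zpow_natCast]
        exact hn n
      · have h1 : ((V ^ (-(n : ℤ)) : Rˣ) : R) * ((V ^ n : Rˣ) : R) = 1 := by
          rw [← Units.val_mul, ← zpow_natCast V n, ← zpow_add, neg_add_cancel, zpow_zero,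
            Units.val_one]
        rw [hn] at h1
        have h2 : (LaurentPolynomial.T (-(n : ℤ)) : R) * LaurentPolynomial.T (n : ℤ) = 1 := by
          rw [mul_comm]
          exact hTT n
        have h3 : IsUnit (LaurentPolynomial.T (n : ℤ) : R) := LaurentPolynomial.isUnit_T n
        exact h3.mul_right_cancel (h1.trans h2.symm)
    refine ⟨Units.map (Ideal.Quotient.mk P).toMonoidHom V, fun k => ?_⟩
    rw [← map_zpow, Units.coe_map]
    show Ideal.Quotient.mk P ((V ^ k : Rˣ) : R) = _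
    rw [hVk]
  refine ⟨R ⧸ P, inferInstance, Ideal.Quotient.isDomain P, U, ?_, ?_⟩
  · intro k hk h1
    have h2 := hU k
    rw [h1, Units.val_one, ← map_one (Ideal.Quotient.mk P), Ideal.Quotient.eq, hmemP, map_sub,
      map_one] at h2
    have h3 : x - t k x = 0 := by
      have h4 : (1 - φ (LaurentPolynomial.T k)) x = x - φ (LaurentPolynomial.T k) x := rfl
      rw [h4, hφ] at h2
      exact h2
    exact hx0 (hfree k hk x (sub_eq_zero.1 h3).symm)
  · intro y
    obtain ⟨f, rfl⟩ := Ideal.Quotient.mk_surjective y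
    obtain ⟨i, s, his⟩ := hrel (φ f c)
    refine ⟨i + q * s, i, ?_⟩
    rw [hU, hU, hU, ← map_one (Ideal.Quotient.mk P), ← map_sub, ← map_mul, ← map_sub,
      Ideal.Quotient.eq]
    apply hcP2
    have h5 : ((LaurentPolynomial.T q - 1) * f - (LaurentPolynomial.T (i + q * s) -
        LaurentPolynomial.T i) : R) = LaurentPolynomial.T q * f - f -
        (LaurentPolynomial.T (i + q * s) - LaurentPolynomial.T i) := by ring
    rw [h5]
    have h6 : ∀ (g h : R) (m : M), φ (g - h) m = φ g m - φ h m := by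
      intro g h m
      rw [map_sub]
      rfl
    rw [h6, h6, h6, hmul, hφ, hφ, hφ, his, hadd, map_sub, sub_self]

end Pool.Agent.Work.MP_302c96_al.Mal
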