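import Pool.Agent.Work.MP_302c96_al.Mal.Stmts

/-! MP_302c96_al, project Mal, item NonInt: bound for the exponents when `T` is not integral. -/

set_option autoImplicit false

namespace Pool.Agent.Work.MP_302c96_al.Mal

namespace NonInt

open Polynomial

theorem int_of_rel {D : Type} [CommRing D] (T : Dˣ) (c : ℤ) (q : ℕ) (i j : ℤ) (hij : j < i)
    (hq : (q : ℤ) < i)
    (h : ((T ^ i : Dˣ) : D) = (c : D) * ((T : D) ^ q - 1) + ((T ^ j : Dˣ) : D)) :
    IsIntegral ℤ (T : D) := by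
  obtain ⟨r, hr⟩ : ∃ r : ℤ, r = min j 0 := ⟨_, rfl⟩
  obtain ⟨N, hN⟩ : ∃ N : ℕ, i - r = ((N + 1 : ℕ) : ℤ) := ⟨(i - r - 1).toNat, by omega⟩
  obtain ⟨A, hA⟩ : ∃ A : ℕ, (q : ℤ) - r = A := ⟨((q : ℤ) - r).toNat, by omega⟩
  obtain ⟨B, hB⟩ : ∃ B : ℕ, - r = B := ⟨(-r).toNat, by omega⟩
  obtain ⟨E, hE⟩ : ∃ E : ℕ, j - r = E := ⟨(j - r).toNat, by omega⟩
  have hrel : (T : D) ^ (N + 1) = (c : D) * ((T : D) ^ A - (T : D) ^ B) + (T : D) ^ E := by
    have e1 : (T : D) ^ (N + 1) = ((T ^ i : Dˣ) : D) * ((T ^ (-r) : Dˣ) : D) := by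
      rw [← Units.val_mul, ← zpow_add, ← sub_eq_add_neg, hN, zpow_natCast, Units.val_pow_eq_pow_val]
    have e2 : (T : D) ^ A = (T : D) ^ q * ((T ^ (-r) : Dˣ) : D) := by
      rw [← Units.val_pow_eq_pow_val, ← Units.val_pow_eq_pow_val, ← Units.val_mul, ← zpow_natCast,
        ← zpow_natCast, ← zpow_add, ← sub_eq_add_neg, hA]
    have e3 : (T : D) ^ B = ((T ^ (-r) : Dˣ) : D) := by
      rw [hB, zpow_natCast, Units.val_pow_eq_pow_val]
    have e4 : (T : D) ^ E = ((T ^ j : Dˣ) : D) * ((T ^ (-r) : Dˣ) : D) := by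
      rw [← Units.val_mul, ← zpow_add, ← sub_eq_add_neg, hE, zpow_natCast,
        Units.val_pow_eq_pow_val]
    rw [e1, e2, e3, e4, h]
    ring
  refine ⟨X ^ (N + 1) - (C c * (X ^ A - X ^ B) + X ^ E), monic_X_pow_sub ?_, ?_⟩
  · refine lt_of_le_of_lt (b := ((N : ℕ) : WithBot ℕ)) ?_
      (by exact_mod_cast Nat.lt_succ_self N)
    apply degree_le_of_natDegree_le
    have hA' : A ≤ N := by omega
    have hB' : B ≤ N := by omega
    have hE' : E ≤ N := by omega
    have h1 : (X ^ A - X ^ B : ℤ[X]).natDegree ≤ N :=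
      (natDegree_sub_le_of_le ((natDegree_X_pow_le _).trans hA')
        ((natDegree_X_pow_le _).trans hB')).trans (le_of_eq (max_self N))
    exact natDegree_add_le_of_degree_le ((natDegree_C_mul_le _ _).trans h1)
      ((natDegree_X_pow_le _).trans hE')
  · simp only [eval₂_sub, eval₂_add, eval₂_mul, eval₂_pow, eval₂_X, eval₂_C]
    rw [hrel]
    simp

end NonInt

theorem I_NonInt : StNonInt := by
  intro D _ _ _ T q hq hT hint n hn i j h
  have hn0 : (n : D) ≠ 0 := by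
    rw [Nat.cast_ne_zero]
    omega
  have hTq : (T : D) ^ q - 1 ≠ 0 := by
    intro h0
    apply hT q (by exact_mod_cast hq.ne')
    ext
    rw [zpow_natCast, Units.val_pow_eq_pow_val, Units.val_one]
    exact sub_eq_zero.1 h0
  have hne : i ≠ j := by
    rintro rfl
    rw [sub_self] at h
    rcases mul_eq_zero.1 h with h1 | h1
    · exact hTq h1
    · exact hn0 h1
  by_contra hcon
  apply hint
  rcases lt_or_gt_of_ne hne with hlt | hlt
  · apply NonInt.int_of_rel T (-(n : ℤ)) q j i hlt (by omega)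
    push_cast
    linear_combination h
  · apply NonInt.int_of_rel T (n : ℤ) q i j hlt (by omega)
    push_cast
    linear_combination -h

end Pool.Agent.Work.MP_302c96_al.Mal
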