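import Pool.Agent.Work.MP_302c96_al.Mal.Stmts

set_option autoImplicit false

namespace Pool.Agent.Work.MP_302c96_al.Mal

universe u

theorem I_Norm : StNorm.{u} := by
  intro G _ a x hcov hinf hmal hx M hab hc1 hc2 hm0
  obtain ⟨m0, hm0M, hm0A⟩ := hm0
  -- step 0
  have hconj : ∀ k : ℤ, ∀ m ∈ M, a ^ k * m * a ^ (-k) ∈ M := by
    intro k
    induction k using Int.induction_on with
    | zero => intro m hm; simpa using hm
    | succ n ih =>
      intro m hm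
      have h := hc1 _ (ih m hm)
      have e : a * (a ^ (n : ℤ) * m * a ^ (-(n : ℤ))) * a⁻¹ =
          a ^ ((n : ℤ) + 1) * m * a ^ (-((n : ℤ) + 1)) := by
        rw [show (n : ℤ) + 1 = 1 + n by ring, zpow_add, neg_add, show (-1 : ℤ) + -(n:ℤ) = -(n:ℤ) + -1 by ring,
          zpow_add]
        simp [mul_assoc]
      rwa [e] at h
    | pred n ih =>
      intro m hm
      have h := hc2 _ (ih m hm)
      have e : a⁻¹ * (a ^ (-(n : ℤ)) * m * a ^ (-(-(n : ℤ)))) * a =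
          a ^ (-(n : ℤ) - 1) * m * a ^ (-(-(n : ℤ) - 1)) := by
        rw [show -(n : ℤ) - 1 = -1 + -n by ring, zpow_add, show -(-1 + -(n : ℤ)) = n + 1 by ring,
          zpow_add]
        simp [mul_assoc]
      rwa [e] at h
  -- step 1
  have hAM : ∀ n : ℤ, a ^ n ∈ M → n = 0 := by
    intro n hn
    by_contra h0
    apply hm0A
    refine hmal m0 n n h0 ?_
    rw [hab m0 hm0M _ hn, mul_inv_cancel_right]
  -- step 2
  let J : AddSubgroup ℤ :=
    { carrier := {j | ∃ l : ℤ, x * a ^ j * x⁻¹ * a ^ l ∈ M}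
      zero_mem' := ⟨0, by simp [M.one_mem]⟩
      add_mem' := by
        rintro j j' ⟨l, hl⟩ ⟨l', hl'⟩
        refine ⟨l + l', ?_⟩
        have h := M.mul_mem hl (hconj (-l) _ hl')
        have e : x * a ^ j * x⁻¹ * a ^ l * (a ^ (-l) * (x * a ^ j' * x⁻¹ * a ^ l') * a ^ (-(-l))) =
            x * a ^ (j + j') * x⁻¹ * a ^ (l + l') := by
          rw [zpow_add, add_comm l l', zpow_add, neg_neg]
          simp [mul_assoc]
        rwa [e] at h
      neg_mem' := by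
        rintro j ⟨l, hl⟩
        refine ⟨-l, ?_⟩
        have h := hconj l _ (M.inv_mem hl)
        have e : a ^ l * (x * a ^ j * x⁻¹ * a ^ l)⁻¹ * a ^ (-l) = x * a ^ (-j) * x⁻¹ * a ^ (-l) := by
          simp [mul_assoc]
        rwa [e] at h }
  have hJ : ∀ j : ℤ, j ∈ J ↔ ∃ l : ℤ, x * a ^ j * x⁻¹ * a ^ l ∈ M := fun j => Iff.rfl
  obtain ⟨p, hp⟩ := Int.subgroup_cyclic J
  have hpJ : p ∈ J := by rw [hp]; exact AddSubgroup.subset_closure rfl
  have hdvd : ∀ j ∈ J, ∃ s : ℤ, j = p * s := by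
    intro j hj
    rw [hp, AddSubgroup.mem_closure_singleton] at hj
    obtain ⟨n, hn⟩ := hj
    exact ⟨n, by rw [← hn, smul_eq_mul, mul_comm]⟩
  -- decomposition of elements of M
  have hdec : ∀ m ∈ M, ∃ i j k : ℤ, m = a ^ i * (x * a ^ j * x⁻¹) * a ^ k ∧
      x * a ^ j * x⁻¹ * a ^ (k + i) ∈ M := by
    intro m hm
    obtain ⟨i, j, k, h⟩ := hcov m
    refine ⟨i, j, k, h, ?_⟩
    have h2 := hconj (-i) m hm
    rw [h] at h2
    have e : a ^ (-i) * (a ^ i * (x * a ^ j * x⁻¹) * a ^ k) * a ^ (-(-i)) =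
        x * a ^ j * x⁻¹ * a ^ (k + i) := by
      rw [neg_neg, zpow_add a k i]
      simp [mul_assoc]
    rwa [e] at h2
  have hp0 : p ≠ 0 := by
    intro hp0
    obtain ⟨i, j, k, h, hM⟩ := hdec m0 hm0M
    obtain ⟨s, hs⟩ := hdvd j ⟨k + i, hM⟩
    rw [hp0, zero_mul] at hs
    rw [hs] at h hM
    apply hm0A
    refine ⟨i + k, ?_⟩
    rw [h, zpow_add]
    simp
  obtain ⟨l0, hl0⟩ := (hJ p).1 hpJ
  obtain ⟨q, hq⟩ : ∃ q : ℤ, l0 = -q := ⟨-l0, by ring⟩
  rw [hq] at hl0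
  set c : G := x * a ^ p * x⁻¹ * a ^ (-q) with hc
  have hq0 : q ≠ 0 := by
    intro hq0
    rw [hc, hq0, neg_zero, zpow_zero, mul_one] at hl0
    have h1 := hab _ (hc1 _ hl0) _ hl0
    have h2 : (x⁻¹ * a * x) * a ^ p * (x⁻¹ * a * x)⁻¹ * a ^ p * ((x⁻¹ * a * x) * a ^ p * (x⁻¹ * a * x)⁻¹)⁻¹ = a ^ p := by
      have e1 : (x⁻¹ * a * x) * a ^ p * (x⁻¹ * a * x)⁻¹ = x⁻¹ * (a * (x * a ^ p * x⁻¹) * a⁻¹) * x := by
        simp [mul_assoc]
      have e2 : a ^ p = x⁻¹ * (x * a ^ p * x⁻¹) * x := by simp [mul_assoc]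
      rw [e1]
      have e3 : x⁻¹ * (a * (x * a ^ p * x⁻¹) * a⁻¹) * x * a ^ p =
          a ^ p * (x⁻¹ * (a * (x * a ^ p * x⁻¹) * a⁻¹) * x) := by
        calc x⁻¹ * (a * (x * a ^ p * x⁻¹) * a⁻¹) * x * a ^ p
            = x⁻¹ * ((a * (x * a ^ p * x⁻¹) * a⁻¹) * (x * a ^ p * x⁻¹)) * x := by simp [mul_assoc]
          _ = x⁻¹ * ((x * a ^ p * x⁻¹) * (a * (x * a ^ p * x⁻¹) * a⁻¹)) * x := by rw [h1]
          _ = _ := by simp [mul_assoc]
      rw [e3, mul_inv_cancel_right]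
    obtain ⟨k, hk⟩ := hmal _ p p hp0 h2
    obtain ⟨k', hk'⟩ := hmal _ p k hp0 hk
    have h3 : x⁻¹ * a ^ (1 : ℤ) * (x⁻¹)⁻¹ = a ^ k' := by rw [zpow_one, inv_inv, hk']
    obtain ⟨k'', hk''⟩ := hmal _ 1 k' one_ne_zero h3
    exact hx ⟨-k'', by rw [zpow_neg, ← hk'', inv_inv]⟩
  -- step 4
  have hcs : ∀ s : ℤ, x * a ^ (p * s) * x⁻¹ * a ^ (-(q * s)) ∈ M := by
    intro s
    induction s using Int.induction_on with
    | zero => simp [M.one_mem]
    | succ n ih =>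
      have h := M.mul_mem hl0 (hconj q _ ih)
      have e : c * (a ^ q * (x * a ^ (p * (n : ℤ)) * x⁻¹ * a ^ (-(q * (n : ℤ)))) * a ^ (-q)) =
          x * a ^ (p * ((n : ℤ) + 1)) * x⁻¹ * a ^ (-(q * ((n : ℤ) + 1))) := by
        rw [hc, show p * ((n : ℤ) + 1) = p + p * n by ring, zpow_add a p,
          show -(q * ((n : ℤ) + 1)) = -(q * n) + -q by ring, zpow_add a (-(q * (n : ℤ)))]
        simp [mul_assoc]
      rwa [e] at h
    | pred n ih =>
      have h := hconj (-q) _ (M.mul_mem (M.inv_mem hl0) ih)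
      have e : a ^ (-q) * (c⁻¹ * (x * a ^ (p * (-(n : ℤ))) * x⁻¹ * a ^ (-(q * (-(n : ℤ)))))) * a ^ (-(-q)) =
          x * a ^ (p * (-(n : ℤ) - 1)) * x⁻¹ * a ^ (-(q * (-(n : ℤ) - 1))) := by
        rw [hc, show p * (-(n : ℤ) - 1) = -p + p * -n by ring, zpow_add a (-p),
          show -(q * (-(n : ℤ) - 1)) = -(q * -n) + q by ring, zpow_add a (-(q * -(n : ℤ)))]
        simp [mul_assoc]
      rwa [e] at h
  refine ⟨c, hl0, q, hq0, ?_, ?_⟩
  · intro m hm k hk h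
    have h1 : m * a ^ k * m⁻¹ = a ^ k := by
      have h2 : a ^ k * m = m * a ^ k := by
        calc a ^ k * m = a ^ k * m * a ^ (-k) * a ^ k := by simp
          _ = m * a ^ k := by rw [h]
      rw [← h2, mul_inv_cancel_right]
    obtain ⟨r, hr⟩ := hmal m k k hk h1
    rw [hr] at hm
    rw [hr, hAM r hm, zpow_zero]
  · intro m hm
    obtain ⟨i, j, k, h, hM⟩ := hdec m hm
    obtain ⟨s, hs⟩ := hdvd j ⟨k + i, hM⟩
    rw [hs] at h hM
    have h1 := M.mul_mem (M.inv_mem (hcs s)) hM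
    have e1 : (x * a ^ (p * s) * x⁻¹ * a ^ (-(q * s)))⁻¹ * (x * a ^ (p * s) * x⁻¹ * a ^ (k + i)) =
        a ^ (q * s + (k + i)) := by
      rw [zpow_add a (q * s)]
      simp [mul_assoc]
    rw [e1] at h1
    have h2 := hAM _ h1
    refine ⟨i, s, ?_⟩
    set d : G := x * a ^ (p * s) * x⁻¹ * a ^ (-(q * s)) with hd
    have hm2 : m = a ^ i * d * a ^ (-i) := by
      rw [h, hd, show k = -(q * s) + -i by linarith, zpow_add]
      simp [mul_assoc]
    have hid : c * (a ^ q * d * a ^ (-q)) = d * (a ^ (q * s) * c * a ^ (-(q * s))) := by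
      have e3 : c * (a ^ q * d * a ^ (-q)) = x * a ^ (p + p * s) * x⁻¹ * a ^ (-(q * s) + -q) := by
        rw [hc, hd, zpow_add a p, zpow_add a (-(q * s))]
        simp [mul_assoc]
      have e4 : d * (a ^ (q * s) * c * a ^ (-(q * s))) = x * a ^ (p * s + p) * x⁻¹ * a ^ (-q + -(q * s)) := by
        rw [hc, hd, zpow_add a (p * s), zpow_add a (-q)]
        simp [mul_assoc]
      rw [e3, e4, add_comm p, add_comm (-(q * s))]
    have hcomm1 := hab c hl0 d (hcs s)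
    have hu : (a ^ q * d * a ^ (-q)) ∈ M := hconj q d (hcs s)
    have hv : (a ^ (q * s) * c * a ^ (-(q * s))) ∈ M := hconj (q * s) c hl0
    have hmain : (a ^ q * d * a ^ (-q)) * d⁻¹ = (a ^ (q * s) * c * a ^ (-(q * s))) * c⁻¹ := by
      rw [mul_inv_eq_iff_eq_mul]
      calc (a ^ q * d * a ^ (-q)) = c⁻¹ * (c * (a ^ q * d * a ^ (-q))) := by rw [inv_mul_cancel_left]
        _ = c⁻¹ * (d * (a ^ (q * s) * c * a ^ (-(q * s)))) := by rw [hid]
        _ = (d * (a ^ (q * s) * c * a ^ (-(q * s)))) * c⁻¹ :=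
            hab _ (M.inv_mem hl0) _ (M.mul_mem (hcs s) hv)
        _ = d * ((a ^ (q * s) * c * a ^ (-(q * s))) * c⁻¹) := by rw [mul_assoc]
        _ = ((a ^ (q * s) * c * a ^ (-(q * s))) * c⁻¹) * d :=
            hab _ (hcs s) _ (M.mul_mem hv (M.inv_mem hl0))
    rw [← hmain, hm2]
    have e5 : a ^ q * (a ^ i * d * a ^ (-i)) * a ^ (-q) * (a ^ i * d * a ^ (-i))⁻¹ =
        a ^ (q + i) * d * a ^ (-(q + i)) * (a ^ i * d⁻¹ * a ^ (-i)) := by
      rw [zpow_add, show -(q + i) = -i + -q by ring, zpow_add]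
      simp [mul_assoc]
    have e6 : a ^ i * (a ^ q * d * a ^ (-q) * d⁻¹) * a ^ (-i) =
        a ^ (i + q) * d * a ^ (-(i + q)) * (a ^ i * d⁻¹ * a ^ (-i)) := by
      rw [zpow_add, show -(i + q) = -q + -i by ring, zpow_add a (-q)]
      simp [mul_assoc]
    rw [e5, e6, add_comm q i]

end Pool.Agent.Work.MP_302c96_al.Mal
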