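import Pool.Agent.Work.MP_302c96_al.Mal.Stmts

/-! Item Q3: proper quotients. -/

set_option autoImplicit false

open scoped commutatorElement

namespace Pool.Agent.Work.MP_302c96_al.Mal

universe u

namespace Quot

/-- Schur: finitely many commutators if the centre has finite index. -/
lemma finite_commutatorSet {G : Type u} [Group G] (h : (Subgroup.center G).FiniteIndex) :
    Finite (commutatorSet G) := by
  have hfin : Finite (G ⧸ Subgroup.center G) := inferInstance
  let s : G ⧸ Subgroup.center G → G := Quotient.out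
  have hs : ∀ g : G, ∃ z ∈ Subgroup.center G, g = s (QuotientGroup.mk g) * z := by
    intro g
    refine ⟨(s (QuotientGroup.mk g))⁻¹ * g, ?_, by group⟩
    rw [← QuotientGroup.eq]
    exact QuotientGroup.out_eq' _
  have hsub : commutatorSet G ⊆
      Set.range (fun p : (G ⧸ Subgroup.center G) × (G ⧸ Subgroup.center G) => ⁅s p.1, s p.2⁆) := by
    rintro c ⟨g, k, rfl⟩
    refine ⟨(QuotientGroup.mk g, QuotientGroup.mk k), ?_⟩
    obtain ⟨z, hz, hgz⟩ := hs g
    obtain ⟨w, hw, hkw⟩ := hs k
    rw [Subgroup.mem_center_iff] at hz hw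
    have e : ∀ u v : G, ⁅u * z, v * w⁆ = ⁅u, v⁆ := by
      intro u v
      have h1 := hz (v * w)
      have h2 := hw u⁻¹
      have h3 := hz (u⁻¹ * (v * w)⁻¹)
      calc ⁅u * z, v * w⁆ = u * (z * (v * w)) * z⁻¹ * u⁻¹ * (v * w)⁻¹ := by
            rw [commutatorElement_def]; group
        _ = u * ((v * w) * z) * z⁻¹ * u⁻¹ * (v * w)⁻¹ := by rw [h1]
        _ = u * v * (w * u⁻¹) * w⁻¹ * v⁻¹ := by group
        _ = u * v * (u⁻¹ * w) * w⁻¹ * v⁻¹ := by rw [h2]
        _ = ⁅u, v⁆ := by rw [commutatorElement_def]; group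
    dsimp only
    conv_rhs => rw [hgz, hkw]
    rw [e]
  exact (Set.finite_range _).subset hsub

lemma fin_comm {G : Type u} [Group G] (h : (Subgroup.center G).FiniteIndex) :
    Finite (commutator G) := by
  have := finite_commutatorSet h
  infer_instance

end Quot

theorem I_Quot (hC : StCentral.{u}) (hI : StIndex.{u}) : StQuot.{u} := by
  intro G _ a x hcov hinf N _ hN
  have hcov' : Cov (QuotientGroup.mk' N a) (QuotientGroup.mk' N x) := by
    intro g
    obtain ⟨g, rfl⟩ := QuotientGroup.mk'_surjective N g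
    obtain ⟨i, j, k, hg⟩ := hcov g
    exact ⟨i, j, k, by rw [hg]; simp only [map_mul, map_zpow, map_inv]⟩
  have hfi : (Subgroup.center (G ⧸ N)).FiniteIndex := by
    by_cases h1 : ∃ p : ℤ, p ≠ 0 ∧ (QuotientGroup.mk' N a) ^ p = 1
    · obtain ⟨p, hp, hap⟩ := h1
      exact hI _ _ hcov' p hp (by rw [hap]; exact Subgroup.one_mem _)
    · push Not at h1
      have hinf' : Inf (QuotientGroup.mk' N a) := by
        intro n hn
        by_contra h0
        exact h1 n h0 hn
      obtain ⟨n, hn1⟩ := Subgroup.ne_bot_iff_exists_ne_one.mp hN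
      have hn := n.2
      obtain ⟨i, j, k, hg⟩ := hcov (n : G)
      have h2 : (QuotientGroup.mk' N a) ^ i * (QuotientGroup.mk' N x * (QuotientGroup.mk' N a) ^ j *
          (QuotientGroup.mk' N x)⁻¹) * (QuotientGroup.mk' N a) ^ k = 1 := by
        have h3 : QuotientGroup.mk' N (n : G) = 1 := (QuotientGroup.eq_one_iff _).mpr hn
        rw [hg] at h3
        simpa only [map_mul, map_zpow, map_inv] using h3
      have h4 : QuotientGroup.mk' N x * (QuotientGroup.mk' N a) ^ j * (QuotientGroup.mk' N x)⁻¹ =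
          (QuotientGroup.mk' N a) ^ (-(i + k)) := by
        have h5 : QuotientGroup.mk' N x * (QuotientGroup.mk' N a) ^ j * (QuotientGroup.mk' N x)⁻¹ =
            ((QuotientGroup.mk' N a) ^ i)⁻¹ * ((QuotientGroup.mk' N a) ^ i *
              (QuotientGroup.mk' N x * (QuotientGroup.mk' N a) ^ j *
              (QuotientGroup.mk' N x)⁻¹) * (QuotientGroup.mk' N a) ^ k) *
              ((QuotientGroup.mk' N a) ^ k)⁻¹ := by group
        rw [h5, h2, mul_one, ← zpow_neg, ← zpow_neg, ← zpow_add]
        congr 1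
        ring
      have hj : j ≠ 0 := by
        rintro rfl
        rw [zpow_zero, mul_one, mul_inv_cancel, mul_one, ← zpow_add] at h2
        have h6 := hinf' _ h2
        apply hn1
        apply Subtype.ext
        rw [hg, zpow_zero, mul_one, mul_inv_cancel, mul_one, ← zpow_add, h6, zpow_zero]
        rfl
      have hik : -(i + k) ≠ 0 := by
        intro h6
        rw [h6, zpow_zero] at h4
        exact hj (hinf' j (conj_eq_one_iff.mp h4))
      exact hI _ _ hcov' j hj (hC _ _ hcov' hinf' j _ hj hik h4).2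
  exact ⟨hfi, Quot.fin_comm hfi⟩

end Pool.Agent.Work.MP_302c96_al.Mal
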