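import Pool.Agent.Work.MP_302c96_al.Mal.Stmts

/-! Project Mal (MP_302c96_al): the ring lemma. -/

set_option autoImplicit false

namespace Pool.Agent.Work.MP_302c96_al.Mal

namespace RingL

variable {D : Type} [CommRing D] [IsDomain D]

theorem pow_ne (T : Dˣ) (q : ℕ) (hq : 0 < q) (hT : ∀ k : ℤ, k ≠ 0 → T ^ k ≠ 1) :
    (T : D) ^ q - 1 ≠ 0 := by
  intro h
  apply hT (q : ℤ) (by exact_mod_cast hq.ne')
  ext
  rw [zpow_natCast, Units.val_pow_eq_pow_val, Units.val_one]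
  exact sub_eq_zero.1 h

theorem inv_ne (T : Dˣ) (hT : ∀ k : ℤ, k ≠ 0 → T ^ k ≠ 1) :
    ∀ k : ℤ, k ≠ 0 → T⁻¹ ^ k ≠ 1 := by
  intro k hk h
  rw [inv_zpow, inv_eq_one] at h
  exact hT k hk h

theorem inv_rel (T : Dˣ) (q : ℕ) (n : ℕ) (i j : ℤ)
    (h : ((T : D) ^ q - 1) * (n : D) = ((T ^ i : Dˣ) : D) - ((T ^ j : Dˣ) : D)) :
    (((T⁻¹ : Dˣ) : D) ^ q - 1) * (n : D) =
      ((T⁻¹ ^ ((q : ℤ) - j) : Dˣ) : D) - ((T⁻¹ ^ ((q : ℤ) - i) : Dˣ) : D) := by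
  have e1 : (T⁻¹ ^ ((q : ℤ) - j) : Dˣ) = T⁻¹ ^ q * T ^ j := by
    rw [zpow_sub, inv_zpow, inv_zpow, inv_inv, zpow_natCast, inv_pow]
  have e2 : (T⁻¹ ^ ((q : ℤ) - i) : Dˣ) = T⁻¹ ^ q * T ^ i := by
    rw [zpow_sub, inv_zpow, inv_zpow, inv_inv, zpow_natCast, inv_pow]
  have e3 : ((T⁻¹ : Dˣ) : D) ^ q * (T : D) ^ q = 1 := by
    rw [← mul_pow, Units.inv_mul, one_pow]
  rw [e1, e2, Units.val_mul, Units.val_mul, Units.val_pow_eq_pow_val]
  linear_combination (-((T⁻¹ : Dˣ) : D) ^ q) * h + (n : D) * e3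

theorem natCase (h1 : StCharP) (h5 : StUpper) (h6 : StCount) (T : Dˣ) (q : ℕ) (hq : 0 < q)
    (hT : ∀ k : ℤ, k ≠ 0 → T ^ k ≠ 1) :
    ¬ ∀ y : D, ∃ i j : ℤ, ((T : D) ^ q - 1) * y = ((T ^ i : Dˣ) : D) - ((T ^ j : Dˣ) : D) := by
  intro h
  obtain ⟨p, hp⟩ := CharP.exists D
  rcases CharP.char_is_prime_or_zero D p with hpr | hp0
  · haveI : Fact p.Prime := ⟨hpr⟩
    obtain ⟨i, j, hij⟩ := h (1 + (T : D) ^ (2 * q + 1))
    exact h1 p T q hq hT i j hij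
  · subst hp0
    haveI : CharZero D := CharP.charP_to_charZero D
    choose I J hIJ using fun n : ℕ => h (n : D)
    obtain ⟨C1, hC1⟩ := h5 T q hq hT
    obtain ⟨C2, hC2⟩ := h5 T⁻¹ q hq (inv_ne T hT)
    refine h6 (fun n => (I n, J n)) (C1 + C2) ?_ ?_
    · intro m n _ _ hmn
      have e1 : I m = I n := congrArg Prod.fst hmn
      have e2 : J m = J n := congrArg Prod.snd hmn
      have e3 : ((T : D) ^ q - 1) * (m : D) = ((T : D) ^ q - 1) * (n : D) := by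
        rw [hIJ m, hIJ n, e1, e2]
      have e4 := mul_left_cancel₀ (pow_ne T q hq hT) e3
      exact_mod_cast e4
    · intro n hn
      obtain ⟨a1, a2⟩ := hC1 n hn (I n) (J n) (hIJ n)
      obtain ⟨b1, b2⟩ := hC2 n hn _ _ (inv_rel T q n (I n) (J n) (hIJ n))
      have hL : (0 : ℤ) ≤ 1 + (Nat.log 2 n : ℤ) := by positivity
      have hC1' : (0 : ℤ) ≤ (C1 : ℤ) * (1 + (Nat.log 2 n : ℤ)) := by positivity
      have hC2' : (0 : ℤ) ≤ (C2 : ℤ) * (1 + (Nat.log 2 n : ℤ)) := by positivity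
      have hq' : (0 : ℤ) ≤ (q : ℤ) := by positivity
      push_cast at *
      constructor
      · rw [abs_le]; constructor <;> nlinarith
      · rw [abs_le]; constructor <;> nlinarith

end RingL

theorem I_Ring (h1 : StCharP) (h5 : StUpper) (h6 : StCount) : StRing := by
  intro D _ _ T q hq hT h
  rcases lt_or_gt_of_ne hq with hneg | hpos
  · obtain ⟨r, hr⟩ : ∃ r : ℕ, q = -(r : ℤ) := ⟨(-q).toNat, by omega⟩
    have hr0 : 0 < r := by omega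
    refine RingL.natCase h1 h5 h6 T r hr0 hT fun y => ?_
    obtain ⟨i, j, hij⟩ := h y
    refine ⟨j + r, i + r, ?_⟩
    have e1 : ((T ^ q : Dˣ) : D) * (T : D) ^ r = 1 := by
      rw [← Units.val_pow_eq_pow_val, ← Units.val_mul, hr, ← zpow_natCast T r, ← zpow_add,
        neg_add_cancel, zpow_zero, Units.val_one]
    have e2 : ((T ^ (j + r) : Dˣ) : D) = ((T ^ j : Dˣ) : D) * (T : D) ^ r := by
      rw [zpow_add, zpow_natCast, Units.val_mul, Units.val_pow_eq_pow_val]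
    have e3 : ((T ^ (i + r) : Dˣ) : D) = ((T ^ i : Dˣ) : D) * (T : D) ^ r := by
      rw [zpow_add, zpow_natCast, Units.val_mul, Units.val_pow_eq_pow_val]
    rw [e2, e3]
    linear_combination (-(T : D) ^ r) * hij + y * e1
  · obtain ⟨r, hr⟩ : ∃ r : ℕ, q = (r : ℤ) := ⟨q.toNat, by omega⟩
    have hr0 : 0 < r := by omega
    refine RingL.natCase h1 h5 h6 T r hr0 hT fun y => ?_
    obtain ⟨i, j, hij⟩ := h y
    refine ⟨i, j, ?_⟩
    rw [hr, zpow_natCast, Units.val_pow_eq_pow_val] at hij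
    exact hij

end Pool.Agent.Work.MP_302c96_al.Mal
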