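import Mathlib
import Pool.Agent.Work.MP_302c96_al.Mal.Stmts

set_option autoImplicit false

/-! Item R5: upper bound in all cases. -/

namespace Pool.Agent.Work.MP_302c96_al.Mal

namespace Upper

open Polynomial

theorem unit_pow {D : Type} [CommRing D] (T : Dˣ) (N : ℕ) (i : ℤ) (h : 0 ≤ i + N) :
    (T : D) ^ N * ((T ^ i : Dˣ) : D) = (T : D) ^ (i + N).toNat := by
  have h1 : (T ^ N * T ^ i : Dˣ) = T ^ (i + N).toNat := by
    rw [← zpow_natCast T N, ← zpow_add, ← zpow_natCast T (i + N).toNat, Int.toNat_of_nonneg h,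
      add_comm]
  have h2 := congrArg (fun u : Dˣ => (u : D)) h1
  simpa using h2

theorem field_pow (z : ℂ) (hz : z ≠ 0) (N : ℕ) (i : ℤ) (h : 0 ≤ i + N) :
    z ^ (i + N).toNat = z ^ N * z ^ i := by
  rw [← zpow_natCast z (i + N).toNat, Int.toNat_of_nonneg h, zpow_add₀ hz, zpow_natCast, mul_comm]

theorem rel {D : Type} [CommRing D] (T : Dˣ) (q n : ℕ) (i j : ℤ) (z : ℂ) (hz : z ≠ 0)
    (hf : ∀ f : Polynomial ℤ, Polynomial.aeval (T : D) f = 0 → Polynomial.aeval z f = 0)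
    (h : ((T : D) ^ q - 1) * (n : D) = (T ^ i : Dˣ) - (T ^ j : Dˣ)) :
    (z ^ q - 1) * (n : ℂ) = z ^ i - z ^ j := by
  have hi : 0 ≤ i + ((i.natAbs + j.natAbs : ℕ) : ℤ) := by omega
  have hj : 0 ≤ j + ((i.natAbs + j.natAbs : ℕ) : ℤ) := by omega
  set N : ℕ := i.natAbs + j.natAbs with hN
  have e1 := unit_pow T N i hi
  have e2 := unit_pow T N j hj
  have h0 : Polynomial.aeval (T : D) (((X : Polynomial ℤ) ^ q - 1) * (n : Polynomial ℤ) * X ^ N -
      X ^ (i + N).toNat + X ^ (j + N).toNat) = 0 := by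
    simp only [map_add, map_sub, map_mul, map_pow, aeval_X, map_one, map_natCast]
    rw [h, ← e1, ← e2]
    ring
  have h1 := hf _ h0
  simp only [map_add, map_sub, map_mul, map_pow, aeval_X, map_one, map_natCast] at h1
  rw [field_pow z hz N i hi, field_pow z hz N j hj] at h1
  have h2 : z ^ N * ((z ^ q - 1) * (n : ℂ)) = z ^ N * (z ^ i - z ^ j) := by
    linear_combination h1
  exact mul_left_cancel₀ (pow_ne_zero _ hz) h2

end Upper

theorem I_Upper (h2 : StNonInt) (h3 : StKron) (h4 : StCBound) : StUpper := by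
  intro D _ _ _ T q hq hT
  by_cases hint : IsIntegral ℤ (T : D)
  · obtain ⟨z, hz1, hz⟩ := h3 T hT hint
    have hz0 : z ≠ 0 := by
      intro h0
      rw [h0, norm_zero] at hz1
      linarith
    obtain ⟨C, hC⟩ := h4 z hz1 q hq
    refine ⟨C, fun n hn i j h => hC n hn i j ?_⟩
    exact Upper.rel T q n i j z hz0 hz h
  · refine ⟨q, fun n hn i j h => ?_⟩
    obtain ⟨h5, h6⟩ := h2 T q hq hT hint n hn i j h
    have h7 : (q : ℤ) ≤ q * (1 + Nat.log 2 n) := by
      have h8 : (0 : ℤ) ≤ (Nat.log 2 n : ℤ) := Int.natCast_nonneg _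
      have h9 : (0 : ℤ) ≤ (q : ℤ) := Int.natCast_nonneg _
      nlinarith
    exact ⟨h5.trans h7, h6.trans h7⟩

end Pool.Agent.Work.MP_302c96_al.Mal
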